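import Mathlib

/-!
# Bar k-visibility graphs: definitions
-/

namespace Pool.Agent.T9h77.Bar2

/-- A bar: a closed horizontal segment of positive length, at height `y`, from abscissa `l`
to abscissa `r`. -/
structure Bar where
  /-- the height -/
  y : ℝ
  /-- the abscissa of the left endpoint -/
  l : ℝ
  /-- the abscissa of the right endpoint -/
  r : ℝ
  /-- the length is positive -/
  lt : l < r

/-- The set of points of the plane covered by a bar. -/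
def Bar.pts (b : Bar) : Set (ℝ × ℝ) := {p | b.l ≤ p.1 ∧ p.1 ≤ b.r ∧ p.2 = b.y}

/-- `Sees k b u v`: there is an axis-parallel rectangle `[x₁, x₂] × [y₁, y₂]` of positive width
whose bottom side lies in one of the bars `b u`, `b v` and whose top side lies in the other, and
whose interior meets at most `k` bars other than `b u` and `b v`. -/
def Sees {V : Type*} (k : ℕ) (b : V → Bar) (u v : V) : Prop :=
  ∃ x₁ x₂ y₁ y₂ : ℝ, x₁ < x₂ ∧ y₁ ≤ y₂ ∧
    ((Set.Icc x₁ x₂ ×ˢ {y₁} ⊆ (b u).pts ∧ Set.Icc x₁ x₂ ×ˢ {y₂} ⊆ (b v).pts) ∨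
      (Set.Icc x₁ x₂ ×ˢ {y₁} ⊆ (b v).pts ∧ Set.Icc x₁ x₂ ×ˢ {y₂} ⊆ (b u).pts)) ∧
    {w : V | w ≠ u ∧ w ≠ v ∧
      ((b w).pts ∩ (Set.Ioo x₁ x₂ ×ˢ Set.Ioo y₁ y₂)).Nonempty}.ncard ≤ k

/-- A graph is a bar `k`-visibility graph if its vertices can be assigned pairwise disjoint bars
such that two distinct vertices are adjacent exactly when they see each other. -/
def IsBarVis {V : Type*} (k : ℕ) (G : SimpleGraph V) : Prop :=
  ∃ b : V → Bar, (Pairwise fun u v => Disjoint (b u).pts (b v).pts) ∧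
    ∀ u v, u ≠ v → (G.Adj u v ↔ Sees k b u v)

theorem Sees.symm {V : Type*} {k : ℕ} {b : V → Bar} {u v : V} (h : Sees k b u v) :
    Sees k b v u := by
  obtain ⟨x₁, x₂, y₁, y₂, hx, hy, h1, h2⟩ := h
  refine ⟨x₁, x₂, y₁, y₂, hx, hy, h1.symm, ?_⟩
  have : {w : V | w ≠ v ∧ w ≠ u ∧ ((b w).pts ∩ (Set.Ioo x₁ x₂ ×ˢ Set.Ioo y₁ y₂)).Nonempty} =
      {w : V | w ≠ u ∧ w ≠ v ∧ ((b w).pts ∩ (Set.Ioo x₁ x₂ ×ˢ Set.Ioo y₁ y₂)).Nonempty} := by
    ext w
    simp only [Set.mem_ofPred_eq]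
    tauto
  rw [this]; exact h2

end Pool.Agent.T9h77.Bar2
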