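import Mathlib

/-!
# Discrete model of bar 2-visibility: auxiliary counting lemmas
-/

namespace Pool.Agent.T9h77.Bar2

open Finset

variable {α : Type*} [LinearOrder α]

/-- Sum over a finite set of a function of the number of smaller elements. -/
theorem sum_rank_below (g : ℕ → ℕ) (T : Finset α) :
    ∑ x ∈ T, g (#{y ∈ T | y < x}) = ∑ i ∈ range #T, g i := by
  induction T using Finset.induction_on_max with
  | empty => simp
  | insert a s ha ih =>
    have hna : a ∉ s := fun h => lt_irrefl _ (ha a h)
    rw [sum_insert hna, card_insert_of_notMem hna, sum_range_succ, ← ih, add_comm]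
    congr 1
    · refine sum_congr rfl fun x hx => ?_
      congr 2
      rw [filter_insert, if_neg (not_lt.2 (ha x hx).le)]
    · congr 2
      rw [filter_insert, if_neg (lt_irrefl _)]
      exact filter_true_of_mem ha

/-- Sum over a finite set of a function of the number of larger elements. -/
theorem sum_rank_above (g : ℕ → ℕ) (T : Finset α) :
    ∑ x ∈ T, g (#{y ∈ T | x < y}) = ∑ i ∈ range #T, g i := by
  induction T using Finset.induction_on_min with
  | empty => simp
  | insert a s ha ih =>
    have hna : a ∉ s := fun h => lt_irrefl _ (ha a h)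
    rw [sum_insert hna, card_insert_of_notMem hna, sum_range_succ, ← ih, add_comm]
    congr 1
    · refine sum_congr rfl fun x hx => ?_
      congr 2
      rw [filter_insert, if_neg (not_lt.2 (ha x hx).le)]
    · congr 2
      rw [filter_insert, if_neg (lt_irrefl _)]
      exact filter_true_of_mem ha

theorem card_rank_below_lt (k : ℕ) (T : Finset α) :
    #{x ∈ T | #{y ∈ T | y < x} < k} = min k #T := by
  have h := sum_rank_below (fun i => if i < k then 1 else 0) T
  rw [card_filter, h, ← card_filter]
  have : (range #T).filter (fun i => i < k) = range (min k #T) := by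
    ext i; simp [and_comm]
  rw [this, card_range]

theorem card_rank_above_lt (k : ℕ) (T : Finset α) :
    #{x ∈ T | #{y ∈ T | x < y} < k} = min k #T := by
  have h := sum_rank_above (fun i => if i < k then 1 else 0) T
  rw [card_filter, h, ← card_filter]
  have : (range #T).filter (fun i => i < k) = range (min k #T) := by
    ext i; simp [and_comm]
  rw [this, card_range]

/-- The number of elements of `S` strictly between `u` and `w`. -/
def btw (S : Finset α) (u w : α) : ℕ := #{x ∈ S | u < x ∧ x < w}

/-- The pairs of a stack `S` that see each other through at most two others. -/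
def vis (S : Finset α) : Finset (α × α) :=
  (S ×ˢ S).filter (fun p => p.1 < p.2 ∧ btw S p.1 p.2 ≤ 2)

theorem mem_vis {S : Finset α} {u w : α} :
    (u, w) ∈ vis S ↔ u ∈ S ∧ w ∈ S ∧ u < w ∧ btw S u w ≤ 2 := by
  simp [vis, and_assoc]

theorem btw_mono {S T : Finset α} (h : T ⊆ S) (u w : α) : btw T u w ≤ btw S u w :=
  card_le_card (filter_subset_filter _ h)

theorem vis_anti {S T : Finset α} (h : T ⊆ S) {u w : α} (hu : u ∈ T) (hw : w ∈ T)
    (hv : (u, w) ∈ vis S) : (u, w) ∈ vis T := by
  rw [mem_vis] at hv ⊢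
  exact ⟨hu, hw, hv.2.2.1, (btw_mono h u w).trans hv.2.2.2⟩

/-- number of elements of `S` below `z` -/
def lo (S : Finset α) (z : α) : ℕ := #{x ∈ S | x < z}

/-- number of elements of `S` above `z` -/
def hi (S : Finset α) (z : α) : ℕ := #{x ∈ S | z < x}

theorem card_near_lo (S : Finset α) (z : α) :
    #{u ∈ S | u < z ∧ btw S u z ≤ 2} = min 3 (lo S z) := by
  have h := card_rank_above_lt 3 (S.filter (· < z))
  rw [lo, ← h, filter_filter]
  congr 1
  ext u
  simp only [mem_filter]
  constructor
  · rintro ⟨h1, h2, h3⟩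
    refine ⟨h1, h2, ?_⟩
    rw [filter_filter]
    unfold btw at h3
    have : S.filter (fun a => a < z ∧ u < a) = S.filter (fun x => u < x ∧ x < z) := by
      ext x; simp [and_comm]
    rw [this]; omega
  · rintro ⟨h1, h2, h3⟩
    refine ⟨h1, h2, ?_⟩
    rw [filter_filter] at h3
    unfold btw
    have : S.filter (fun a => a < z ∧ u < a) = S.filter (fun x => u < x ∧ x < z) := by
      ext x; simp [and_comm]
    rw [this] at h3; omega

theorem card_near_hi (S : Finset α) (z : α) :
    #{w ∈ S | z < w ∧ btw S z w ≤ 2} = min 3 (hi S z) := by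
  have h := card_rank_below_lt 3 (S.filter (z < ·))
  rw [hi, ← h, filter_filter]
  congr 1
  ext u
  simp only [mem_filter]
  constructor
  · rintro ⟨h1, h2, h3⟩
    refine ⟨h1, h2, ?_⟩
    rw [filter_filter]
    unfold btw at h3
    omega
  · rintro ⟨h1, h2, h3⟩
    refine ⟨h1, h2, ?_⟩
    rw [filter_filter] at h3
    unfold btw
    omega

theorem lo_add_hi {S : Finset α} {z : α} (hz : z ∉ S) : lo S z + hi S z = #S := by
  unfold lo hi
  rw [← card_union_of_disjoint]
  · congr 1
    ext x
    simp only [mem_filter, mem_union]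
    constructor
    · rintro (⟨h1, _⟩ | ⟨h1, _⟩) <;> exact h1
    · intro h1
      rcases lt_trichotomy x z with h | h | h
      · exact Or.inl ⟨h1, h⟩
      · subst h; exact absurd h1 hz
      · exact Or.inr ⟨h1, h⟩
  · rw [disjoint_left]
    intro x
    simp only [mem_filter]
    rintro ⟨_, a⟩ ⟨_, b⟩
    exact absurd a (not_lt.2 b.le)

/-- Births when `z` is inserted. -/
theorem births_insert {S : Finset α} {z : α} (hz : z ∉ S) :
    #(vis (insert z S) \ vis S) ≤ min 3 (lo S z) + min 3 (hi S z) := by
  rw [← card_near_lo, ← card_near_hi]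
  have hsub : vis (insert z S) \ vis S ⊆
      ({u ∈ S | u < z ∧ btw S u z ≤ 2}.image (fun u => (u, z))) ∪
      ({w ∈ S | z < w ∧ btw S z w ≤ 2}.image (fun w => (z, w))) := by
    rintro ⟨u, w⟩ h
    rw [mem_sdiff] at h
    obtain ⟨h1, h2⟩ := h
    have h1' := mem_vis.1 h1
    obtain ⟨hu, hw, huw, hb⟩ := h1'
    rw [mem_union, mem_image, mem_image]
    by_cases hwz : w = z
    · left
      subst hwz
      have hu' : u ∈ S := by
        rcases mem_insert.1 hu with rfl | h
        · exact absurd huw (lt_irrefl _)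
        · exact h
      exact ⟨u, mem_filter.2 ⟨hu', huw, (btw_mono (subset_insert _ _) _ _).trans hb⟩, rfl⟩
    · by_cases huz : u = z
      · right
        subst huz
        have hw' : w ∈ S := by
          rcases mem_insert.1 hw with rfl | h
          · exact absurd huw (lt_irrefl _)
          · exact h
        exact ⟨w, mem_filter.2 ⟨hw', huw, (btw_mono (subset_insert _ _) _ _).trans hb⟩, rfl⟩
      · exfalso
        apply h2
        exact vis_anti (subset_insert _ _) ((mem_insert.1 hu).resolve_left huz)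
          ((mem_insert.1 hw).resolve_left hwz) h1
  calc _ ≤ _ := card_le_card hsub
    _ ≤ _ := card_union_le _ _
    _ ≤ _ := add_le_add card_image_le card_image_le

theorem btw_inj_left {S : Finset α} {z u u' : α} (hu : u ∈ S) (hu' : u' ∈ S) (huz : u < z)
    (hu'z : u' < z) (h : btw S u z = btw S u' z) : u = u' := by
  by_contra hne
  wlog hlt : u < u' generalizing u u'
  · exact this hu' hu hu'z huz h.symm (Ne.symm hne)
      (lt_of_le_of_ne (not_lt.1 hlt) (Ne.symm hne))
  have : btw S u' z < btw S u z := by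
    apply card_lt_card
    rw [ssubset_iff_of_subset]
    · refine ⟨u', ?_, ?_⟩
      · simp [hu', hlt, hu'z]
      · simp
    · intro x
      simp only [mem_filter]
      rintro ⟨h1, h2, h3⟩
      exact ⟨h1, hlt.trans h2, h3⟩
  omega

theorem btw_inj_right {S : Finset α} {z w w' : α} (hw : w ∈ S) (hw' : w' ∈ S) (hwz : z < w)
    (hw'z : z < w') (h : btw S z w = btw S z w') : w = w' := by
  by_contra hne
  wlog hlt : w < w' generalizing w w'
  · exact this hw' hw hw'z hwz h.symm (Ne.symm hne)
      (lt_of_le_of_ne (not_lt.1 hlt) (Ne.symm hne))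
  have : btw S z w < btw S z w' := by
    apply card_lt_card
    rw [ssubset_iff_of_subset]
    · refine ⟨w, ?_, ?_⟩
      · simp [hw, hlt, hwz]
      · simp
    · intro x
      simp only [mem_filter]
      rintro ⟨h1, h2, h3⟩
      exact ⟨h1, h2, h3.trans hlt⟩
  omega

theorem btw_split {S : Finset α} {z u w : α} (hz : z ∉ S) (hu : u < z) (hw : z < w) :
    btw S u w = btw S u z + btw S z w := by
  unfold btw
  rw [← card_union_of_disjoint]
  · congr 1
    ext x
    simp only [mem_filter, mem_union]
    constructor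
    · rintro ⟨h1, h2, h3⟩
      rcases lt_trichotomy x z with h | h | h
      · left; exact ⟨h1, h2, h⟩
      · subst h; exact absurd h1 hz
      · right; exact ⟨h1, h, h3⟩
    · rintro (⟨h1, h2, h3⟩ | ⟨h1, h2, h3⟩)
      · exact ⟨h1, h2, h3.trans hw⟩
      · exact ⟨h1, hu.trans h2, h3⟩
  · rw [disjoint_left]
    intro x
    simp only [mem_filter]
    rintro ⟨_, _, h3⟩ ⟨_, h5, _⟩
    exact absurd h3 (not_lt.2 h5.le)

theorem btw_lt_lo {S : Finset α} {z u : α} (hu : u ∈ S) (huz : u < z) : btw S u z < lo S z := by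
  apply card_lt_card
  rw [ssubset_iff_of_subset]
  · exact ⟨u, by simp [hu, huz], by simp⟩
  · intro x
    simp only [mem_filter]
    rintro ⟨h1, h2, h3⟩
    exact ⟨h1, h3⟩

theorem btw_lt_hi {S : Finset α} {z w : α} (hw : w ∈ S) (hwz : z < w) : btw S z w < hi S z := by
  apply card_lt_card
  rw [ssubset_iff_of_subset]
  · exact ⟨w, by simp [hw, hwz], by simp⟩
  · intro x
    simp only [mem_filter]
    rintro ⟨h1, h2, h3⟩
    exact ⟨h1, h2⟩

/-- Births when `z` is removed from `insert z S`. -/
theorem births_remove {S : Finset α} {z : α} (hz : z ∉ S) (hS : 5 ≤ #S) :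
    #(vis S \ vis (insert z S)) + (3 - lo S z) + (3 - hi S z) ≤ 3 := by
  have hsum := lo_add_hi hz
  have key : #(vis S \ vis (insert z S)) ≤
      #{p ∈ range 3 | p < lo S z ∧ 2 - p < hi S z} := by
    have hprop : ∀ u w, (u, w) ∈ vis S \ vis (insert z S) →
        u ∈ S ∧ w ∈ S ∧ u < z ∧ z < w ∧ btw S u z + btw S z w = 2 := by
      intro u w h
      rw [mem_sdiff] at h
      obtain ⟨h1, h2⟩ := h
      obtain ⟨hu, hw, huw, hb⟩ := mem_vis.1 h1
      have h2' : ¬ btw (insert z S) u w ≤ 2 := by
        intro hc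
        exact h2 (mem_vis.2 ⟨mem_insert_of_mem hu, mem_insert_of_mem hw, huw, hc⟩)
      have hzz : u < z ∧ z < w := by
        by_contra hc
        apply h2'
        have : btw (insert z S) u w = btw S u w := by
          unfold btw
          rw [filter_insert, if_neg hc]
        rw [this]; exact hb
      have hcard : btw (insert z S) u w = btw S u w + 1 := by
        unfold btw
        rw [filter_insert, if_pos hzz, card_insert_of_notMem]
        simp [hz]
      refine ⟨hu, hw, hzz.1, hzz.2, ?_⟩
      rw [← btw_split hz hzz.1 hzz.2]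
      omega
    apply card_le_card_of_injOn (fun p => btw S p.1 z)
    · rintro ⟨u, w⟩ h
      obtain ⟨hu, hw, huz, hzw, hs⟩ := hprop u w (mem_coe.1 h)
      have h1 := btw_lt_lo hu huz
      have h2 := btw_lt_hi hw hzw
      simp only [coe_filter, Set.mem_ofPred_eq, mem_range]
      omega
    · rintro ⟨u, w⟩ h ⟨u', w'⟩ h' he
      obtain ⟨hu, hw, huz, hzw, hs⟩ := hprop u w (mem_coe.1 h)
      obtain ⟨hu', hw', huz', hzw', hs'⟩ := hprop u' w' (mem_coe.1 h')
      simp only at he
      have e1 := btw_inj_left hu hu' huz huz' he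
      have e2 := btw_inj_right hw hw' hzw hzw' (by omega)
      rw [e1, e2]
  have hcount : ∀ a c : ℕ, 5 ≤ a + c →
      #{p ∈ range 3 | p < a ∧ 2 - p < c} + (3 - a) + (3 - c) ≤ 3 := by
    intro a c hac
    have h0 : #{p ∈ range 3 | p < a ∧ 2 - p < c} =
        (if 0 < a ∧ 2 < c then 1 else 0) + (if 1 < a ∧ 1 < c then 1 else 0) +
          (if 2 < a ∧ 0 < c then 1 else 0) := by
      rw [card_filter, sum_range_succ, sum_range_succ, sum_range_one]
    rw [h0]
    split_ifs <;> omega
  have := hcount (lo S z) (hi S z) (by omega)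
  omega

/-- top potential -/
def psiL (A S : Finset α) : ℕ := ∑ x ∈ S.filter (· ∈ A), (3 - lo S x)

/-- bottom potential -/
def psiH (A S : Finset α) : ℕ := ∑ x ∈ S.filter (· ∈ A), (3 - hi S x)

theorem lo_insert {S : Finset α} {z x : α} (hz : z ∉ S) :
    lo (insert z S) x = lo S x + if z < x then 1 else 0 := by
  unfold lo
  rw [filter_insert]
  split_ifs with h
  · rw [card_insert_of_notMem]; simp [hz]
  · simp

theorem hi_insert {S : Finset α} {z x : α} (hz : z ∉ S) :
    hi (insert z S) x = hi S x + if x < z then 1 else 0 := by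
  unfold hi
  rw [filter_insert]
  split_ifs with h
  · rw [card_insert_of_notMem]; simp [hz]
  · simp

theorem psiL_insert_le {A S : Finset α} {z : α} (hz : z ∉ S) :
    psiL A (insert z S) ≤ psiL A S + (3 - lo S z) := by
  unfold psiL
  have h1 : ∑ x ∈ S.filter (· ∈ A), (3 - lo (insert z S) x) ≤
      ∑ x ∈ S.filter (· ∈ A), (3 - lo S x) := by
    apply sum_le_sum
    intro x _
    have := @lo_insert _ _ S z x hz
    omega
  have hzz : lo (insert z S) z = lo S z := by rw [lo_insert hz]; simp
  rw [filter_insert]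
  split_ifs with h
  · rw [sum_insert (by simp [hz]), hzz]
    omega
  · omega

theorem psiH_insert_le {A S : Finset α} {z : α} (hz : z ∉ S) :
    psiH A (insert z S) ≤ psiH A S + (3 - hi S z) := by
  unfold psiH
  have h1 : ∑ x ∈ S.filter (· ∈ A), (3 - hi (insert z S) x) ≤
      ∑ x ∈ S.filter (· ∈ A), (3 - hi S x) := by
    apply sum_le_sum
    intro x _
    have := @hi_insert _ _ S z x hz
    omega
  have hzz : hi (insert z S) z = hi S z := by rw [hi_insert hz]; simp
  rw [filter_insert]
  split_ifs with h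
  · rw [sum_insert (by simp [hz]), hzz]
    omega
  · omega

theorem card_lo_lt_above {S : Finset α} {z : α} (hz : z ∉ S) :
    #{x ∈ S | z < x ∧ lo S x < 3} ≤ 3 - lo S z := by
  have h1 : #{x ∈ S | lo S x < 3} = min 3 #S := card_rank_below_lt 3 S
  have h2 : #{x ∈ S | x < z ∧ lo S x < 3} = min 3 (lo S z) := by
    have h := card_rank_below_lt 3 (S.filter (· < z))
    have e : lo S z = #(S.filter (· < z)) := rfl
    rw [e, ← h, filter_filter]
    congr 1
    ext x
    simp only [mem_filter]
    constructor
    · rintro ⟨h1, h2, h3⟩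
      refine ⟨h1, h2, lt_of_le_of_lt (card_le_card ?_) h3⟩
      intro y
      simp only [mem_filter]
      rintro ⟨⟨a, _⟩, c⟩
      exact ⟨a, c⟩
    · rintro ⟨h1, h2, h3⟩
      refine ⟨h1, h2, lt_of_le_of_lt (card_le_card ?_) h3⟩
      intro y
      simp only [mem_filter]
      rintro ⟨a, c⟩
      exact ⟨⟨a, c.trans h2⟩, c⟩
  have h3 : #{x ∈ S | lo S x < 3} =
      #{x ∈ S | x < z ∧ lo S x < 3} + #{x ∈ S | z < x ∧ lo S x < 3} := by
    rw [← card_union_of_disjoint]
    · congr 1
      ext x
      simp only [mem_filter, mem_union]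
      constructor
      · rintro ⟨a, b⟩
        rcases lt_trichotomy x z with h | h | h
        · exact Or.inl ⟨a, h, b⟩
        · subst h; exact absurd a hz
        · exact Or.inr ⟨a, h, b⟩
      · rintro (⟨a, _, b⟩ | ⟨a, _, b⟩) <;> exact ⟨a, b⟩
    · rw [disjoint_left]
      intro x
      simp only [mem_filter]
      rintro ⟨_, a, _⟩ ⟨_, b, _⟩
      exact absurd a (not_lt.2 b.le)
  have h4 := lo_add_hi hz
  omega

theorem card_hi_lt_below {S : Finset α} {z : α} (hz : z ∉ S) :
    #{x ∈ S | x < z ∧ hi S x < 3} ≤ 3 - hi S z := by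
  have h1 : #{x ∈ S | hi S x < 3} = min 3 #S := card_rank_above_lt 3 S
  have h2 : #{x ∈ S | z < x ∧ hi S x < 3} = min 3 (hi S z) := by
    have h := card_rank_above_lt 3 (S.filter (z < ·))
    have e : hi S z = #(S.filter (z < ·)) := rfl
    rw [e, ← h, filter_filter]
    congr 1
    ext x
    simp only [mem_filter]
    constructor
    · rintro ⟨h1, h2, h3⟩
      refine ⟨h1, h2, lt_of_le_of_lt (card_le_card ?_) h3⟩
      intro y
      simp only [mem_filter]
      rintro ⟨⟨a, _⟩, c⟩
      exact ⟨a, c⟩
    · rintro ⟨h1, h2, h3⟩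
      refine ⟨h1, h2, lt_of_le_of_lt (card_le_card ?_) h3⟩
      intro y
      simp only [mem_filter]
      rintro ⟨a, c⟩
      exact ⟨⟨a, h2.trans c⟩, c⟩
  have h3 : #{x ∈ S | hi S x < 3} =
      #{x ∈ S | z < x ∧ hi S x < 3} + #{x ∈ S | x < z ∧ hi S x < 3} := by
    rw [← card_union_of_disjoint]
    · congr 1
      ext x
      simp only [mem_filter, mem_union]
      constructor
      · rintro ⟨a, b⟩
        rcases lt_trichotomy x z with h | h | h
        · exact Or.inr ⟨a, h, b⟩
        · subst h; exact absurd a hz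
        · exact Or.inl ⟨a, h, b⟩
      · rintro (⟨a, _, b⟩ | ⟨a, _, b⟩) <;> exact ⟨a, b⟩
    · rw [disjoint_left]
      intro x
      simp only [mem_filter]
      rintro ⟨_, a, _⟩ ⟨_, b, _⟩
      exact absurd a (not_lt.2 b.le)
  have h4 := lo_add_hi hz
  omega

theorem psiL_le_insert {A S : Finset α} {z : α} (hz : z ∉ S) :
    psiL A S ≤ psiL A (insert z S) + (3 - lo S z) := by
  unfold psiL
  have h0 : ∑ x ∈ S.filter (· ∈ A), (3 - lo (insert z S) x) ≤
      ∑ x ∈ (insert z S).filter (· ∈ A), (3 - lo (insert z S) x) :=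
    sum_le_sum_of_subset (filter_subset_filter _ (subset_insert _ _))
  have h1 : ∑ x ∈ S.filter (· ∈ A), (3 - lo S x) ≤
      ∑ x ∈ S.filter (· ∈ A), ((3 - lo (insert z S) x) + if z < x ∧ lo S x < 3 then 1 else 0) := by
    apply sum_le_sum
    intro x _
    have := @lo_insert _ _ S z x hz
    split_ifs at * with h1 h2 <;> first | omega | simp_all
  rw [sum_add_distrib] at h1
  have h2 : ∑ x ∈ S.filter (· ∈ A), (if z < x ∧ lo S x < 3 then 1 else 0) ≤
      #{x ∈ S | z < x ∧ lo S x < 3} := by
    rw [card_filter]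
    exact sum_le_sum_of_subset (filter_subset _ _)
  have h3 := card_lo_lt_above hz
  omega

theorem psiH_le_insert {A S : Finset α} {z : α} (hz : z ∉ S) :
    psiH A S ≤ psiH A (insert z S) + (3 - hi S z) := by
  unfold psiH
  have h0 : ∑ x ∈ S.filter (· ∈ A), (3 - hi (insert z S) x) ≤
      ∑ x ∈ (insert z S).filter (· ∈ A), (3 - hi (insert z S) x) :=
    sum_le_sum_of_subset (filter_subset_filter _ (subset_insert _ _))
  have h1 : ∑ x ∈ S.filter (· ∈ A), (3 - hi S x) ≤
      ∑ x ∈ S.filter (· ∈ A), ((3 - hi (insert z S) x) + if x < z ∧ hi S x < 3 then 1 else 0) := by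
    apply sum_le_sum
    intro x _
    have := @hi_insert _ _ S z x hz
    split_ifs at * with h1 h2 <;> first | omega | simp_all
  rw [sum_add_distrib] at h1
  have h2 : ∑ x ∈ S.filter (· ∈ A), (if x < z ∧ hi S x < 3 then 1 else 0) ≤
      #{x ∈ S | x < z ∧ hi S x < 3} := by
    rw [card_filter]
    exact sum_le_sum_of_subset (filter_subset _ _)
  have h3 := card_hi_lt_below hz
  omega

end Pool.Agent.T9h77.Bar2
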