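import Pool.Agent.T9h77.Bar2Time

/-!
# Discrete model of bar 2-visibility: the main inequality
-/

namespace Pool.Agent.T9h77.Bar2

open Finset

set_option linter.unusedSectionVars false

variable {α : Type*} [LinearOrder α]

theorem Ed_subset_prs (L R : α → ℕ) (V : Finset α) : Ed L R V ⊆ prs V := by
  intro p hp
  obtain ⟨t, ht⟩ := mem_Ed.1 hp
  exact vis_subset_prs (sl_subset _ _ _ _) ht

theorem sl_mono {L R : α → ℕ} {V W : Finset α} (h : W ⊆ V) (t : ℕ) :
    sl L R W t ⊆ sl L R V t := filter_subset_filter _ h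

theorem Ed_erase (L R : α → ℕ) (V : Finset α) (b : α) :
    Ed L R V ⊆ Ed L R (V.erase b) ∪ (Ed L R V).filter (fun p => p.1 = b ∨ p.2 = b) := by
  rintro ⟨u, w⟩ hp
  rw [mem_union, mem_filter]
  by_cases hc : u = b ∨ w = b
  · exact Or.inr ⟨hp, hc⟩
  · left
    push Not at hc
    obtain ⟨t, ht⟩ := mem_Ed.1 hp
    obtain ⟨h1, h2, _, _⟩ := mem_vis.1 ht
    rw [mem_sl] at h1 h2
    refine mem_Ed.2 ⟨t, vis_anti (sl_mono (erase_subset _ _) t) ?_ ?_ ht⟩
    · rw [mem_sl, mem_erase]; exact ⟨⟨hc.1, h1.1⟩, h1.2⟩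
    · rw [mem_sl, mem_erase]; exact ⟨⟨hc.2, h2.1⟩, h2.2⟩

theorem deg_le {L R : α → ℕ} {V : Finset α} (h : Gen L R V) {b : α} (hb : b ∈ V) :
    #((Ed L R V).filter (fun p => p.1 = b ∨ p.2 = b)) + 1 ≤
      #{u ∈ V | L u < R b ∧ L b < R u} := by
  set D := (Ed L R V).filter (fun p => p.1 = b ∨ p.2 = b) with hD
  have hprop : ∀ p ∈ D, p.1 < p.2 ∧ (p.1 = b ∨ p.2 = b) ∧ p.1 ∈ V ∧ p.2 ∈ V ∧
      L p.1 < R p.2 ∧ L p.2 < R p.1 := by
    intro p hp
    rw [hD, mem_filter] at hp
    obtain ⟨t, ht⟩ := mem_Ed.1 hp.1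
    obtain ⟨h1, h2, h3, _⟩ := mem_vis.1 (show (p.1, p.2) ∈ _ from ht)
    rw [mem_sl] at h1 h2
    exact ⟨h3, hp.2, h1.1, h2.1, by omega, by omega⟩
  have hinj : Set.InjOn (fun p : α × α => if p.1 = b then p.2 else p.1) D := by
    intro p hp q hq he
    obtain ⟨p1, p2, _⟩ := hprop p (mem_coe.1 hp)
    obtain ⟨q1, q2, _⟩ := hprop q (mem_coe.1 hq)
    obtain ⟨x, y⟩ := p
    obtain ⟨x', y'⟩ := q
    simp only at *
    split_ifs at he with c1 c2 c2
    · rw [c1, c2, he]
    · exfalso
      have hy' : y' = b := q2.resolve_left c2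
      subst c1; subst he; subst hy'
      exact absurd p1 (not_lt.2 q1.le)
    · exfalso
      have hy : y = b := p2.resolve_left c1
      subst c2; subst he; subst hy
      exact absurd p1 (not_lt.2 q1.le)
    · have hy : y = b := p2.resolve_left c1
      have hy' : y' = b := q2.resolve_left c2
      rw [hy, hy', he]
  have hnb : b ∉ D.image (fun p : α × α => if p.1 = b then p.2 else p.1) := by
    intro hc
    rw [mem_image] at hc
    obtain ⟨p, hp, he⟩ := hc
    obtain ⟨p1, p2, _⟩ := hprop p hp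
    split_ifs at he with c
    · rw [c, he] at p1; exact lt_irrefl _ p1
    · exact c he
  rw [← card_image_of_injOn hinj, ← card_insert_of_notMem hnb]
  apply card_le_card
  intro x hx
  rw [mem_insert, mem_image] at hx
  rw [mem_filter]
  rcases hx with rfl | ⟨p, hp, rfl⟩
  · exact ⟨hb, h.lt x hb, h.lt x hb⟩
  · obtain ⟨p1, p2, p3, p4, p5, p6⟩ := hprop p hp
    split_ifs with c
    · rw [← c]; exact ⟨p4, p6, p5⟩
    · have := p2.resolve_left c
      rw [← this]; exact ⟨p3, p5, p6⟩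

theorem exists_t0 {L : α → ℕ} {V : Finset α} (hL : ∀ u ∈ V, ∀ v ∈ V, L u = L v → u = v)
    {m ρ : ℕ} (h : m ≤ ins L V ρ) : ∃ t, t ≤ ρ ∧ ins L V t = m := by
  classical
  have hex : ∃ t, m ≤ ins L V t := ⟨ρ, h⟩
  refine ⟨Nat.find hex, Nat.find_min' hex h, ?_⟩
  have h1 := Nat.find_spec hex
  by_cases h0 : Nat.find hex = 0
  · rw [h0] at h1 ⊢
    have : ins L V 0 = 0 := by
      unfold ins
      rw [card_eq_zero, filter_eq_empty_iff]
      intro x _; omega
    omega
  · obtain ⟨s, hs⟩ := Nat.exists_eq_succ_of_ne_zero h0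
    have h2 := Nat.find_min hex (m := s) (by omega)
    rw [hs] at h1 ⊢
    have h3 : ins L V (s + 1) ≤ ins L V s + 1 := by
      unfold ins
      have : ({v ∈ V | L v < s + 1} : Finset α) ⊆ {v ∈ V | L v < s} ∪ {v ∈ V | L v = s} := by
        intro v
        rw [mem_union, mem_filter, mem_filter, mem_filter]
        rintro ⟨h1, h2⟩
        by_cases h : L v = s
        · exact Or.inr ⟨h1, h⟩
        · exact Or.inl ⟨h1, by omega⟩
      refine (card_le_card this).trans ((card_union_le _ _).trans ?_)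
      have : #{v ∈ V | L v = s} ≤ 1 := by
        rw [card_le_one]
        intro a ha b hb
        rw [mem_filter] at ha hb
        exact hL a ha.1 b hb.1 (by omega)
      omega
    show ins L V (s + 1) = m
    have h1' : m ≤ ins L V (s + 1) := h1
    omega

theorem exists_t2 {R : α → ℕ} {V : Finset α} (hR : ∀ u ∈ V, ∀ v ∈ V, R u = R v → u = v)
    {m τ : ℕ} (h : m < rem R V τ) : ∃ t, τ < t ∧ rem R V t = m := by
  classical
  have hex : ∃ t, rem R V t ≤ m := by
    refine ⟨V.sup R + 1, ?_⟩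
    have : rem R V (V.sup R + 1) = 0 := by
      unfold rem
      rw [card_eq_zero, filter_eq_empty_iff]
      intro x hx
      have := le_sup (f := R) hx
      omega
    omega
  have h1 := Nat.find_spec hex
  have hlt : τ < Nat.find hex := by
    by_contra hc
    have := rem_anti R V (not_lt.1 hc)
    omega
  refine ⟨Nat.find hex, hlt, ?_⟩
  obtain ⟨s, hs⟩ := Nat.exists_eq_succ_of_ne_zero (show Nat.find hex ≠ 0 by omega)
  have h2 := Nat.find_min hex (m := s) (by omega)
  rw [hs] at h1 ⊢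
  have h3 : rem R V s ≤ rem R V (s + 1) + 1 := by
    unfold rem
    have : ({v ∈ V | s ≤ R v} : Finset α) ⊆ {v ∈ V | s + 1 ≤ R v} ∪ {v ∈ V | R v = s} := by
      intro v
      rw [mem_union, mem_filter, mem_filter, mem_filter]
      rintro ⟨h1, h2⟩
      by_cases h : R v = s
      · exact Or.inr ⟨h1, h⟩
      · exact Or.inl ⟨h1, by omega⟩
    refine (card_le_card this).trans ((card_union_le _ _).trans ?_)
    have : #{v ∈ V | R v = s} ≤ 1 := by
      rw [card_le_one]
      intro a ha b hb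
      rw [mem_filter] at ha hb
      exact hR a ha.1 b hb.1 (by omega)
    omega
  show rem R V (s + 1) = m
  have h1' : rem R V (s + 1) ≤ m := h1
  omega

/-- The main inequality. -/
theorem card_Ed_le {L R : α → ℕ} : ∀ (n : ℕ) (V : Finset α), #V = n → Gen L R V → 7 ≤ n →
    #(Ed L R V) + 42 ≤ 9 * n := by
  intro n
  induction n using Nat.strong_induction_on with
  | _ n ih =>
  intro V hn hG h7
  have hprs := card_le_card (Ed_subset_prs L R V)
  have hprs2 := card_prs V
  rw [hn] at hprs2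
  rcases Nat.eq_or_lt_of_le h7 with h7' | h8
  · subst h7'
    omega
  by_cases hdeg : ∃ b ∈ V, #((Ed L R V).filter (fun p => p.1 = b ∨ p.2 = b)) ≤ 9
  · obtain ⟨b, hb, hd⟩ := hdeg
    have hc : #(V.erase b) = n - 1 := by rw [card_erase_of_mem hb, hn]
    have h1 := ih (n - 1) (by omega) (V.erase b) hc (hG.mono (erase_subset _ _)) (by omega)
    have h2 := (card_le_card (Ed_erase L R V b)).trans (card_union_le _ _)
    omega
  push Not at hdeg
  by_contra hcon
  have hVne : V.Nonempty := by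
    rw [← card_pos]; omega
  obtain ⟨v0, hv0, hmin⟩ := exists_min_image V R hVne
  obtain ⟨v1, hv1, hmax⟩ := exists_max_image V L hVne
  have hins11 : 11 ≤ ins L V (R v0) := by
    have h1 := deg_le hG hv0
    have h2 := hdeg v0 hv0
    have h3 : #{u ∈ V | L u < R v0 ∧ L v0 < R u} ≤ ins L V (R v0) := by
      apply card_le_card
      intro x
      rw [mem_filter, mem_filter]
      exact fun h => ⟨h.1, h.2.1⟩
    omega
  have hrem11 : 11 ≤ rem R V (L v1 + 1) := by
    have h1 := deg_le hG hv1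
    have h2 := hdeg v1 hv1
    have h3 : #{u ∈ V | L u < R v1 ∧ L v1 < R u} ≤ rem R V (L v1 + 1) := by
      apply card_le_card
      intro x
      rw [mem_filter, mem_filter]
      exact fun h => ⟨h.1, h.2.2⟩
    omega
  obtain ⟨t0, ht0ρ, hins0⟩ := exists_t0 hG.injL (m := 6) (ρ := R v0) (by omega)
  obtain ⟨τ, hτ⟩ : ∃ τ, τ = L v1 + 1 := ⟨_, rfl⟩
  rw [← hτ] at hrem11
  obtain ⟨t2, ht2, hrem2⟩ := exists_t2 hG.injR (m := 6) (τ := τ) (by omega)
  have hLτ : ∀ v ∈ V, L v < τ := fun v hv => by have := hmax v hv; omega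
  have hinsτ : ins L V τ = n := by
    unfold ins
    rw [filter_true_of_mem hLτ, hn]
  have ht0τ : t0 < τ := by
    by_contra hc
    have := ins_mono L V (not_lt.1 hc)
    omega
  have hslτ : #(sl L R V τ) = rem R V τ := by
    unfold sl rem
    congr 1
    ext v
    rw [mem_filter, mem_filter]
    exact ⟨fun h => ⟨h.1, h.2.2⟩, fun h => ⟨h.1, hLτ v h.1, h.2⟩⟩
  have hsl2 : #(sl L R V t2) = 6 := by
    rw [← hrem2]
    unfold sl rem
    congr 1
    ext v
    rw [mem_filter, mem_filter]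
    exact ⟨fun h => ⟨h.1, h.2.2⟩, fun h => ⟨h.1, by have := hLτ v h.1; omega, h.2⟩⟩
  have hslearly : ∀ t, t ≤ R v0 → sl L R V t = {v ∈ V | L v < t} := by
    intro t ht
    unfold sl
    ext v
    rw [mem_filter, mem_filter]
    exact ⟨fun h => ⟨h.1, h.2.1⟩, fun h => ⟨h.1, h.2, by have := hmin v h.1; omega⟩⟩
  have hsl0 : #(sl L R V t0) = 6 := by
    rw [hslearly t0 ht0ρ]; exact hins0
  have hrem0 : rem R V t0 = #V := by
    unfold rem
    rw [filter_true_of_mem]
    intro v hv
    have := hmin v hv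
    omega
  -- the cut step
  have hbig : ∀ t, t0 ≤ t → t ≤ τ → 6 ≤ #(sl L R V t) := by
    intro t ht0 htτ
    by_contra hc
    push Not at hc
    have htρ : R v0 < t := by
      by_contra hc2
      push Not at hc2
      have h1 : #(sl L R V t) = ins L V t := by rw [hslearly t hc2]; rfl
      have h2 := ins_mono L V ht0
      omega
    have htl : t ≤ L v1 := by
      by_contra hc2
      have : t = τ := by omega
      subst this
      omega
    set V1 := {v ∈ V | L v < t} with hV1
    set V2 := {v ∈ V | t ≤ R v} with hV2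
    have hc1 : 11 ≤ #V1 := by
      have := ins_mono L V htρ.le
      exact hins11.trans this
    have hc2 : 11 ≤ #V2 := by
      have := rem_anti R V (show t ≤ τ by omega)
      exact hrem11.trans this
    have hs1 : V1 ⊆ V := filter_subset _ _
    have hs2 : V2 ⊆ V := filter_subset _ _
    have hl1 : #V1 < n := by
      rw [← hn]
      apply card_lt_card
      rw [ssubset_iff_of_subset hs1]
      exact ⟨v1, hv1, by rw [hV1, mem_filter]; omega⟩
    have hl2 : #V2 < n := by
      rw [← hn]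
      apply card_lt_card
      rw [ssubset_iff_of_subset hs2]
      exact ⟨v0, hv0, by rw [hV2, mem_filter]; omega⟩
    have hunion : V1 ∪ V2 = V := by
      ext v
      rw [mem_union, hV1, hV2, mem_filter, mem_filter]
      constructor
      · rintro (h | h) <;> exact h.1
      · intro hv
        have := hG.lt v hv
        by_cases h : L v < t
        · exact Or.inl ⟨hv, h⟩
        · exact Or.inr ⟨hv, by omega⟩
    have hinter : V1 ∩ V2 = sl L R V t := by
      ext v
      rw [mem_inter, hV1, hV2, mem_filter, mem_filter, mem_sl]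
      constructor
      · rintro ⟨h1, h2⟩; exact ⟨h1.1, h1.2, h2.2⟩
      · rintro ⟨h1, h2, h3⟩; exact ⟨⟨h1, h2⟩, ⟨h1, h3⟩⟩
    have hcard := card_union_add_card_inter V1 V2
    rw [hunion, hinter, hn] at hcard
    have hE1 := ih #V1 hl1 V1 rfl (hG.mono hs1) (by omega)
    have hE2 := ih #V2 hl2 V2 rfl (hG.mono hs2) (by omega)
    have hEsub : Ed L R V ⊆ Ed L R V1 ∪ Ed L R V2 := by
      rintro ⟨u, w⟩ hp
      obtain ⟨s, hs⟩ := mem_Ed.1 hp
      obtain ⟨h1, h2, _, _⟩ := mem_vis.1 hs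
      rw [mem_sl] at h1 h2
      rw [mem_union]
      rcases le_total s t with hst | hst
      · left
        refine mem_Ed.2 ⟨s, vis_anti (sl_mono hs1 s) ?_ ?_ hs⟩
        · rw [mem_sl, hV1, mem_filter]; exact ⟨⟨h1.1, by omega⟩, h1.2⟩
        · rw [mem_sl, hV1, mem_filter]; exact ⟨⟨h2.1, by omega⟩, h2.2⟩
      · right
        refine mem_Ed.2 ⟨s, vis_anti (sl_mono hs2 s) ?_ ?_ hs⟩
        · rw [mem_sl, hV2, mem_filter]; exact ⟨⟨h1.1, by omega⟩, h1.2⟩
        · rw [mem_sl, hV2, mem_filter]; exact ⟨⟨h2.1, by omega⟩, h2.2⟩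
    have hIsub : vis (sl L R V t) ⊆ Ed L R V1 ∩ Ed L R V2 := by
      have e1 : sl L R V1 t = sl L R V t := by
        ext v
        rw [mem_sl, mem_sl, hV1, mem_filter]
        constructor
        · rintro ⟨⟨a, _⟩, b⟩; exact ⟨a, b⟩
        · rintro ⟨a, b⟩; exact ⟨⟨a, b.1⟩, b⟩
      have e2 : sl L R V2 t = sl L R V t := by
        ext v
        rw [mem_sl, mem_sl, hV2, mem_filter]
        constructor
        · rintro ⟨⟨a, _⟩, b⟩; exact ⟨a, b⟩
        · rintro ⟨a, b⟩; exact ⟨⟨a, b.2⟩, b⟩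
      intro p hp
      rw [mem_inter]
      exact ⟨mem_Ed.2 ⟨t, by rw [e1]; exact hp⟩, mem_Ed.2 ⟨t, by rw [e2]; exact hp⟩⟩
    have hv := card_vis_ge (sl L R V t)
    have h3 := card_le_card hEsub
    have h4 := card_le_card hIsub
    have h5 := card_union_add_card_inter (Ed L R V1) (Ed L R V2)
    omega
  -- potentials
  set F := sl L R V t0 with hF
  set W := sl L R V t2 with hWdef
  set S := sl L R V τ with hS
  set A := {x ∈ F | lo F x < 3} with hA
  set B := {x ∈ F | hi F x < 3} with hB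
  set A' := {x ∈ W | lo W x < 3} with hA'
  set B' := {x ∈ W | hi W x < 3} with hB'
  have pA : psiL A F = 6 := psiL_top (by omega)
  have pB : psiH B F = 6 := psiH_top (by omega)
  have pA' : psiL A' W = 6 := psiL_top (by omega)
  have pB' : psiH B' W = 6 := psiH_top (by omega)
  have hmid := mid_inv hG hsl0 hrem0 pA pB hins0 hbig ht0τ.le
  have hfin := fin_inv hG hsl2 pA' pB' (t2 - τ) (by omega)
    (fun v hv => by have := hLτ v hv; omega)
  rw [show t2 - (t2 - τ) = τ by omega] at hfin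
  rw [← hS, ← hF, hinsτ, hn] at hmid
  rw [← hS, ← hWdef] at hfin
  -- covering
  have hcover : Ed L R V ⊆ Mid L R V F t0 τ ∪ Mid L R V W τ t2 := by
    rintro p hp
    obtain ⟨s, hs⟩ := mem_Ed.1 hp
    unfold Mid
    simp only [mem_union, mem_biUnion, mem_Icc]
    rcases lt_or_ge s t0 with h1 | h1
    · left; left
      apply vis_subset_prs _ hs
      intro v hv
      rw [hF, hslearly t0 ht0ρ, mem_filter]
      rw [mem_sl] at hv
      exact ⟨hv.1, by omega⟩
    · rcases le_or_gt s τ with h2 | h2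
      · left; right; exact ⟨s, ⟨h1, h2⟩, hs⟩
      · rcases le_or_gt s t2 with h3 | h3
        · right; right; exact ⟨s, ⟨h2.le, h3⟩, hs⟩
        · right; left
          apply vis_subset_prs _ hs
          intro v hv
          rw [mem_sl] at hv
          rw [hWdef, mem_sl]
          have := hLτ v hv.1
          exact ⟨hv.1, by omega, by omega⟩
  -- intersection
  set X := {x ∈ S | (x ∈ A ∧ x ∈ A') ∧ lo S x < 3} with hX
  set Y := {x ∈ S | (x ∈ B ∧ x ∈ B') ∧ hi S x < 3} with hY
  have hABlt : ∀ x ∈ A, ∀ y ∈ B, x < y := by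
    intro x hx y hy
    rw [hA, mem_filter] at hx
    rw [hB, mem_filter] at hy
    by_contra hc
    push Not at hc
    -- F ⊆ {z < x} ∪ {x} ∪ {z > y}
    have hsub : F ⊆ ({z ∈ F | z < x} ∪ {z ∈ F | y < z}) ∪ {y} := by
      intro z hz
      simp only [mem_union, mem_filter, mem_singleton]
      rcases lt_trichotomy z y with h | h | h
      · exact Or.inl (Or.inl ⟨hz, lt_of_lt_of_le h hc⟩)
      · exact Or.inr h
      · exact Or.inl (Or.inr ⟨hz, h⟩)
    have h1 := (card_le_card hsub).trans (card_union_le _ _)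
    have h2 := card_union_le {z ∈ F | z < x} {z ∈ F | y < z}
    have h3 : #{z ∈ F | z < x} < 3 := hx.2
    have h4 : #{z ∈ F | y < z} < 3 := hy.2
    rw [card_singleton] at h1
    omega
  have hdisj : Disjoint (vis S) (X ×ˢ Y) := by
    rw [disjoint_left]
    rintro ⟨x, y⟩ hv hp
    simp only [mem_product, hX, hY, mem_filter] at hp
    obtain ⟨⟨hxS, _, hxl⟩, ⟨hyS, _, hyl⟩⟩ := hp
    obtain ⟨_, _, hxy, hb⟩ := mem_vis.1 hv
    have hsub : S ⊆ (({z ∈ S | z < x} ∪ {z ∈ S | y < z}) ∪ {z ∈ S | x < z ∧ z < y}) ∪ {x, y} := by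
      intro z hz
      simp only [mem_union, mem_filter, mem_insert, mem_singleton]
      rcases lt_trichotomy z x with h | h | h
      · exact Or.inl (Or.inl (Or.inl ⟨hz, h⟩))
      · exact Or.inr (Or.inl h)
      · rcases lt_trichotomy z y with h' | h' | h'
        · exact Or.inl (Or.inr ⟨hz, h, h'⟩)
        · exact Or.inr (Or.inr h')
        · exact Or.inl (Or.inl (Or.inr ⟨hz, h'⟩))
    have h1 := (card_le_card hsub).trans (card_union_le _ _)
    have h2 := card_union_le ({z ∈ S | z < x} ∪ {z ∈ S | y < z}) {z ∈ S | x < z ∧ z < y}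
    have h3 := card_union_le {z ∈ S | z < x} {z ∈ S | y < z}
    have h4 : #({x, y} : Finset α) ≤ 2 := card_le_two
    have h5 : #{z ∈ S | z < x} < 3 := hxl
    have h6 : #{z ∈ S | y < z} < 3 := hyl
    have h7 : #{z ∈ S | x < z ∧ z < y} ≤ 2 := hb
    omega
  have hint : vis S ∪ X ×ˢ Y ⊆ Mid L R V F t0 τ ∩ Mid L R V W τ t2 := by
    intro p hp
    rw [mem_union] at hp
    rw [mem_inter]
    unfold Mid
    simp only [mem_union, mem_biUnion, mem_Icc]
    rcases hp with hp | hp
    · exact ⟨Or.inr ⟨τ, ⟨ht0τ.le, le_refl _⟩, hp⟩, Or.inr ⟨τ, ⟨le_refl _, ht2.le⟩, hp⟩⟩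
    · obtain ⟨x, y⟩ := p
      rw [mem_product, hX, hY] at hp
      simp only [mem_filter] at hp
      obtain ⟨⟨_, ⟨hxA, hxA'⟩, _⟩, ⟨_, ⟨hyB, hyB'⟩, _⟩⟩ := hp
      have hlt := hABlt x hxA y hyB
      refine ⟨Or.inl (mem_prs.2 ⟨(mem_filter.1 hxA).1, (mem_filter.1 hyB).1, hlt⟩),
        Or.inl (mem_prs.2 ⟨(mem_filter.1 hxA').1, (mem_filter.1 hyB').1, hlt⟩)⟩
  have hint' := card_le_card hint
  rw [card_union_of_disjoint hdisj, card_product] at hint'
  have hvis := card_vis_ge S
  obtain ⟨q1, q2⟩ := psiL_two A A' S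
  obtain ⟨q3, q4⟩ := psiH_two B B' S
  have q5 := hb_mul _ q2 _ q4
  have hc1 := card_le_card hcover
  have hc2 := card_union_add_card_inter (Mid L R V F t0 τ) (Mid L R V W τ t2)
  rw [← hX] at q1 q5
  rw [← hY] at q3 q5
  have hremle : rem R V τ ≤ n := by
    rw [← hn]; exact card_le_card (filter_subset _ _)
  omega

end Pool.Agent.T9h77.Bar2
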