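import Pool.Agent.T9h77.Bar2Def
import Pool.Agent.T9h77.Bar2Main

/-!
# From geometry to the discrete model
-/

namespace Pool.Agent.T9h77.Bar2

open Finset

section

variable {n : ℕ} (b : Fin n → Bar)

/-- coordinate of an event -/
noncomputable def coord (e : Bool × Fin n) : ℝ := if e.1 then (b e.2).r else (b e.2).l

/-- sorting key of an event -/
noncomputable def key (e : Bool × Fin n) : ℝ ×ₗ (Bool ×ₗ Fin n) :=
  toLex (coord b e, toLex e)

/-- rank of an event -/
noncomputable def rk (e : Bool × Fin n) : ℕ := #{e' : Bool × Fin n | key b e' < key b e}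

/-- number of events before the abscissa `x` -/
noncomputable def tm (x : ℝ) : ℕ := #{e' : Bool × Fin n | coord b e' < x}

theorem key_inj {e e' : Bool × Fin n} (h : key b e = key b e') : e = e' := by
  unfold key at h
  have h1 := (toLex.injective h)
  have h2 := (Prod.mk.inj h1).2
  exact toLex.injective h2

theorem rk_lt {e e' : Bool × Fin n} (h : key b e < key b e') : rk b e < rk b e' := by
  unfold rk
  apply card_lt_card
  rw [ssubset_iff_of_subset]
  · exact ⟨e, by simp [h], by simp⟩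
  · intro x
    simp only [mem_filter, mem_univ, true_and]
    exact fun hx => hx.trans h

theorem rk_inj {e e' : Bool × Fin n} (h : rk b e = rk b e') : e = e' := by
  rcases lt_trichotomy (key b e) (key b e') with h1 | h1 | h1
  · have := rk_lt b h1; omega
  · exact key_inj b h1
  · have := rk_lt b h1; omega

theorem key_lt_of_coord {e e' : Bool × Fin n} (h : coord b e < coord b e') :
    key b e < key b e' := by
  unfold key
  rw [Prod.Lex.lt_iff]
  exact Or.inl h

theorem coord_le_of_key {e e' : Bool × Fin n} (h : key b e < key b e') :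
    coord b e ≤ coord b e' := by
  by_contra hc
  push Not at hc
  exact absurd h (not_lt.2 (key_lt_of_coord b hc).le)

theorem rk_lt_tm {e : Bool × Fin n} {x : ℝ} : rk b e < tm b x ↔ coord b e < x := by
  constructor
  · intro h
    by_contra hc
    push Not at hc
    apply absurd h (not_lt.2 _)
    unfold rk tm
    apply card_le_card
    intro y
    simp only [mem_filter, mem_univ, true_and]
    exact fun hy => key_lt_of_coord b (lt_of_lt_of_le hy hc)
  · intro h
    unfold rk tm
    apply card_lt_card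
    rw [ssubset_iff_of_subset]
    · exact ⟨e, by simp [h], by simp⟩
    · intro y
      simp only [mem_filter, mem_univ, true_and]
      exact fun hy => lt_of_le_of_lt (coord_le_of_key b hy) h

/-- position of a bar in the vertical order -/
noncomputable def pos (v : Fin n) : ℝ ×ₗ Fin n := toLex ((b v).y, v)

/-- insertion time -/
noncomputable def LL (p : ℝ ×ₗ Fin n) : ℕ := rk b (false, (ofLex p).2)

/-- removal time -/
noncomputable def RR (p : ℝ ×ₗ Fin n) : ℕ := rk b (true, (ofLex p).2)

theorem pos_inj : Function.Injective (pos b) := by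
  intro u v h
  unfold pos at h
  exact (Prod.mk.inj (toLex.injective h)).2

/-- the set of all bars -/
noncomputable def VV : Finset (ℝ ×ₗ Fin n) := univ.image (pos b)

theorem gen : Gen (LL b) (RR b) (VV b) := by
  refine ⟨?_, ?_, ?_, ?_⟩
  · intro v hv
    unfold VV at hv
    rw [mem_image] at hv
    obtain ⟨v, _, rfl⟩ := hv
    apply rk_lt
    apply key_lt_of_coord
    simpa [coord, pos] using (b v).lt
  · intro u hu v hv h
    unfold VV at hu hv
    rw [mem_image] at hu hv
    obtain ⟨u, _, rfl⟩ := hu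
    obtain ⟨v, _, rfl⟩ := hv
    have := (Prod.mk.inj (rk_inj b h)).2
    exact congrArg (pos b) this
  · intro u hu v hv h
    unfold VV at hu hv
    rw [mem_image] at hu hv
    obtain ⟨u, _, rfl⟩ := hu
    obtain ⟨v, _, rfl⟩ := hv
    have := (Prod.mk.inj (rk_inj b h)).2
    exact congrArg (pos b) this
  · intro u hu v hv h
    have := (Prod.mk.inj (rk_inj b h)).1
    exact absurd this (by simp)

theorem mem_sl_tm {x : ℝ} {v : Fin n} :
    pos b v ∈ sl (LL b) (RR b) (VV b) (tm b x) ↔ (b v).l < x ∧ x ≤ (b v).r := by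
  rw [mem_sl]
  have h1 : LL b (pos b v) < tm b x ↔ (b v).l < x := by
    have := rk_lt_tm b (e := (false, v)) (x := x)
    have e1 : LL b (pos b v) = rk b (false, v) := rfl
    rw [e1]
    simpa [coord] using this
  have h2 : tm b x ≤ RR b (pos b v) ↔ x ≤ (b v).r := by
    have := rk_lt_tm b (e := (true, v)) (x := x)
    have e1 : RR b (pos b v) = rk b (true, v) := rfl
    rw [← not_lt, ← not_lt, not_iff_not, e1]
    simpa [coord] using this
  rw [h1, h2]
  have h3 : pos b v ∈ VV b := mem_image_of_mem _ (mem_univ _)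
  exact ⟨fun h => h.2, fun h => ⟨h3, h⟩⟩

theorem pair_of_rect (hd : Pairwise fun u v => Disjoint (b u).pts (b v).pts) {u v : Fin n}
    (huv : u ≠ v) {x₁ x₂ y₁ y₂ : ℝ} (hx : x₁ < x₂) (hy : y₁ ≤ y₂)
    (h1 : Set.Icc x₁ x₂ ×ˢ {y₁} ⊆ (b u).pts) (h2 : Set.Icc x₁ x₂ ×ˢ {y₂} ⊆ (b v).pts)
    (h3 : {w : Fin n | w ≠ u ∧ w ≠ v ∧
      ((b w).pts ∩ (Set.Ioo x₁ x₂ ×ˢ Set.Ioo y₁ y₂)).Nonempty}.ncard ≤ 2) :
    (pos b u, pos b v) ∈ Ed (LL b) (RR b) (VV b) := by
  have hu1 : (x₁, y₁) ∈ (b u).pts := h1 ⟨⟨le_refl _, hx.le⟩, rfl⟩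
  have hu2 : (x₂, y₁) ∈ (b u).pts := h1 ⟨⟨hx.le, le_refl _⟩, rfl⟩
  have hv1 : (x₁, y₂) ∈ (b v).pts := h2 ⟨⟨le_refl _, hx.le⟩, rfl⟩
  have hv2 : (x₂, y₂) ∈ (b v).pts := h2 ⟨⟨hx.le, le_refl _⟩, rfl⟩
  simp only [Bar.pts, Set.mem_ofPred_eq] at hu1 hu2 hv1 hv2
  obtain ⟨x, hx1, hx2⟩ := exists_between hx
  have hdist : ∀ w w' : Fin n, (b w).l ≤ x → x ≤ (b w).r → (b w').l ≤ x → x ≤ (b w').r →
      (b w).y = (b w').y → w = w' := by
    intro w w' a1 a2 a3 a4 a5
    by_contra hne
    have := Set.disjoint_left.1 (hd hne)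
    exact this (show (x, (b w).y) ∈ (b w).pts from ⟨a1, a2, rfl⟩) ⟨a3, a4, a5⟩
  have hyy : (b u).y < (b v).y := by
    rw [← hu1.2.2, ← hv1.2.2]
    refine lt_of_le_of_ne hy ?_
    intro he
    apply huv
    apply hdist u v (by linarith) (by linarith) (by linarith) (by linarith)
    rw [← hu1.2.2, ← hv1.2.2]; exact he
  rw [mem_Ed]
  refine ⟨tm b x, mem_vis.2 ⟨?_, ?_, ?_, ?_⟩⟩
  · rw [mem_sl_tm]; constructor <;> linarith
  · rw [mem_sl_tm]; constructor <;> linarith
  · unfold pos; rw [Prod.Lex.lt_iff]; exact Or.inl hyy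
  · refine le_trans ?_ h3
    unfold btw
    rw [← Set.ncard_coe_finset]
    refine Set.ncard_le_ncard_of_injOn (fun p => (ofLex p).2) ?_ ?_ (Set.toFinite _)
    · intro p hp
      rw [mem_coe, mem_filter] at hp
      obtain ⟨hp1, hp2, hp3⟩ := hp
      have hpV := sl_subset _ _ _ _ hp1
      unfold VV at hpV
      rw [mem_image] at hpV
      obtain ⟨w, _, rfl⟩ := hpV
      rw [mem_sl_tm] at hp1
      have hwu : w ≠ u := by rintro rfl; exact lt_irrefl _ hp2
      have hwv : w ≠ v := by rintro rfl; exact lt_irrefl _ hp3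
      have hyu : (b u).y < (b w).y := by
        unfold pos at hp2
        rw [Prod.Lex.lt_iff] at hp2
        rcases hp2 with h | h
        · exact h
        · exfalso
          exact hwu (hdist w u hp1.1.le hp1.2 (by linarith) (by linarith) h.1.symm)
      have hyv : (b w).y < (b v).y := by
        unfold pos at hp3
        rw [Prod.Lex.lt_iff] at hp3
        rcases hp3 with h | h
        · exact h
        · exfalso
          exact hwv (hdist w v hp1.1.le hp1.2 (by linarith) (by linarith) h.1)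
      refine ⟨hwu, hwv, (x, (b w).y), ⟨hp1.1.le, hp1.2, rfl⟩, ⟨hx1, hx2⟩, ?_, ?_⟩
      · have := hu1.2.2; simp only at this ⊢; rw [this]; exact hyu
      · have := hv1.2.2; simp only at this ⊢; rw [this]; exact hyv
    · intro p hp q hq he
      rw [mem_coe, mem_filter] at hp hq
      have hpV := sl_subset _ _ _ _ hp.1
      have hqV := sl_subset _ _ _ _ hq.1
      unfold VV at hpV hqV
      rw [mem_image] at hpV hqV
      obtain ⟨w, _, rfl⟩ := hpV
      obtain ⟨w', _, rfl⟩ := hqV
      exact congrArg (pos b) he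

end

/-- The geometric upper bound. -/
theorem edges_le {n : ℕ} (hn : 7 ≤ n) (G : SimpleGraph (Fin n)) (hG : IsBarVis 2 G) :
    G.edgeSet.ncard + 42 ≤ 9 * n := by
  obtain ⟨b, hd, hadj⟩ := hG
  have hcard : #(VV b) = n := by
    unfold VV
    rw [card_image_of_injective _ (pos_inj b), card_univ, Fintype.card_fin]
  have hmain := card_Ed_le n (VV b) hcard (gen b) hn
  have hsub : G.edgeSet ⊆
      (((Ed (LL b) (RR b) (VV b)).image (fun p => s((ofLex p.1).2, (ofLex p.2).2)) :
        Finset (Sym2 (Fin n))) : Set (Sym2 (Fin n))) := by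
    intro e
    induction e using Sym2.ind with
    | _ u v =>
      intro he
      rw [SimpleGraph.mem_edgeSet] at he
      have huv := he.ne
      obtain ⟨x₁, x₂, y₁, y₂, hx, hy, h1, h2⟩ := (hadj u v huv).1 he
      rw [mem_coe, mem_image]
      rcases h1 with ⟨h1, h1'⟩ | ⟨h1, h1'⟩
      · exact ⟨_, pair_of_rect b hd huv hx hy h1 h1' h2, rfl⟩
      · refine ⟨_, pair_of_rect b hd huv.symm hx hy h1 h1' ?_, ?_⟩
        · have : {w : Fin n | w ≠ v ∧ w ≠ u ∧
              ((b w).pts ∩ (Set.Ioo x₁ x₂ ×ˢ Set.Ioo y₁ y₂)).Nonempty} =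
              {w : Fin n | w ≠ u ∧ w ≠ v ∧
              ((b w).pts ∩ (Set.Ioo x₁ x₂ ×ˢ Set.Ioo y₁ y₂)).Nonempty} := by
            ext w
            simp only [Set.mem_ofPred_eq]
            tauto
          rw [this]; exact h2
        · exact Sym2.eq_swap
  have h1 := Set.ncard_le_ncard hsub (Set.toFinite _)
  rw [Set.ncard_coe_finset] at h1
  have h2 := card_image_le (s := Ed (LL b) (RR b) (VV b))
    (f := fun p => s((ofLex p.1).2, (ofLex p.2).2))
  omega

end Pool.Agent.T9h77.Bar2
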