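import Pool.Agent.T9h77.Bar2Low
import Pool.Agent.T9h77.Bar2Geo

/-!
# The extremal family: geometry and counting
-/

namespace Pool.Agent.T9h77.Bar2

open Finset

theorem ll_lt_rr (N i : ℕ) (hN : 12 ≤ N) : ll i < rr N i := by
  have := tab N i
  omega

/-- The bars of the extremal family. -/
noncomputable def rep (N : ℕ) (hN : 12 ≤ N) (n : ℕ) (i : Fin n) : Bar :=
  ⟨(yy N i : ℝ), (ll i : ℝ), (rr N i : ℝ), by exact_mod_cast ll_lt_rr N i hN⟩

theorem yy_inj {N i j : ℕ} (hi : i < N) (hj : j < N) (h : yy N i = yy N j) : i = j := by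
  have h1 := tab N i
  have h2 := tab N j
  omega

theorem rep_disj (N : ℕ) (hN : 12 ≤ N) (n : ℕ) (hn : n ≤ N) :
    Pairwise fun u v => Disjoint (rep N hN n u).pts (rep N hN n v).pts := by
  intro u v huv
  rw [Set.disjoint_left]
  rintro ⟨x, y⟩ h1 h2
  simp only [Bar.pts, rep, Set.mem_ofPred_eq] at h1 h2
  have h3 : (yy N u : ℝ) = yy N v := by rw [← h1.2.2, h2.2.2]
  have h4 : yy N u = yy N v := by exact_mod_cast h3
  exact huv (Fin.ext (yy_inj (by omega) (by omega) h4))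

theorem sees_of_wit (N : ℕ) (hN : 12 ≤ N) (n : ℕ) (hn : n ≤ N) (i j : Fin n) (T a b : ℕ)
    (h : Wit N i j T a b) : Sees 2 (rep N hN n) i j := by
  obtain ⟨h1, h2, h3, h4, h5, h6⟩ := h
  have r1 : (ll i : ℝ) ≤ T := by exact_mod_cast h1
  have r2 : (ll j : ℝ) ≤ T := by exact_mod_cast h2
  have r3 : (T : ℝ) + 1 ≤ rr N i := by exact_mod_cast h3
  have r4 : (T : ℝ) + 1 ≤ rr N j := by exact_mod_cast h4
  have r5 : (yy N i : ℝ) < yy N j := by exact_mod_cast h5
  refine ⟨T + 1 / 4, T + 3 / 4, yy N i, yy N j, by linarith, r5.le, Or.inl ⟨?_, ?_⟩, ?_⟩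
  · rintro ⟨x, y⟩ ⟨⟨hx1, hx2⟩, hy⟩
    simp only [Set.mem_singleton_iff] at hx1 hx2 hy
    simp only [Bar.pts, rep, Set.mem_ofPred_eq]
    exact ⟨by linarith, by linarith, hy⟩
  · rintro ⟨x, y⟩ ⟨⟨hx1, hx2⟩, hy⟩
    simp only [Set.mem_singleton_iff] at hx1 hx2 hy
    simp only [Bar.pts, rep, Set.mem_ofPred_eq]
    exact ⟨by linarith, by linarith, hy⟩
  · have hsub : {w : Fin n | w ≠ i ∧ w ≠ j ∧ ((rep N hN n w).pts ∩
        (Set.Ioo ((T : ℝ) + 1 / 4) (T + 3 / 4) ×ˢ Set.Ioo (yy N i : ℝ) (yy N j))).Nonempty} ⊆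
        (Fin.val ⁻¹' ({a, b} : Set ℕ)) := by
      rintro w ⟨hw1, hw2, ⟨x, y⟩, hp, hx, hy⟩
      simp only [Bar.pts, rep, Set.mem_ofPred_eq] at hp
      simp only [Set.mem_Ioo] at hx hy
      obtain ⟨p1, p2, p3⟩ := hp
      have q1 : (ll w : ℝ) < T + 1 := by linarith
      have q2 : (T : ℝ) < rr N w := by linarith
      have q3 : (yy N i : ℝ) < yy N w := by rw [← p3]; exact hy.1
      have q4 : (yy N w : ℝ) < yy N j := by rw [← p3]; exact hy.2
      have q1' : ll w < T + 1 := by exact_mod_cast q1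
      have q2' : T < rr N w := by exact_mod_cast q2
      have q3' : yy N i < yy N w := by exact_mod_cast q3
      have q4' : yy N w < yy N j := by exact_mod_cast q4
      have := h6 w (by omega) (fun h => hw1 (Fin.ext h)) (fun h => hw2 (Fin.ext h)) (by omega)
        q2' q3' q4'
      simpa using this
    refine (Set.ncard_le_ncard hsub (Set.toFinite _)).trans ?_
    have h7 : (Fin.val ⁻¹' ({a, b} : Set ℕ) : Set (Fin n)).ncard ≤ ({a, b} : Set ℕ).ncard :=
      Set.ncard_le_ncard_of_injOn (t := ({a, b} : Set ℕ)) Fin.val (fun x hx => hx)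
        (Fin.val_injective.injOn) (Set.toFinite _)
    exact h7.trans ((Set.ncard_insert_le a {b}).trans (by simp))

/-- The extremal graph. -/
def famG (N : ℕ) (hN : 12 ≤ N) (n : ℕ) : SimpleGraph (Fin n) where
  Adj u v := u ≠ v ∧ Sees 2 (rep N hN n) u v
  symm := ⟨fun _ _ h => ⟨h.1.symm, h.2.symm⟩⟩
  loopless := ⟨fun _ h => h.1 rfl⟩

theorem famG_isBarVis (N : ℕ) (hN : 12 ≤ N) (n : ℕ) (hn : n ≤ N) :
    IsBarVis 2 (famG N hN n) :=
  ⟨rep N hN n, rep_disj N hN n hn, fun _ _ huv => ⟨fun h => h.2, fun h => ⟨huv, h⟩⟩⟩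

theorem famG_adj (N : ℕ) (hN : 12 ≤ N) (n : ℕ) (hn : n ≤ N) (i j : Fin n) (hij : i.val < j.val)
    (h : j.val < 12 ∨ i.val = 0 ∨ i.val = 1 ∨ i.val = 2 ∨ i.val = 6 ∨ i.val = 7 ∨ i.val = 8 ∨
      i.val + 1 = j.val ∨ i.val + 2 = j.val ∨ i.val + 3 = j.val) :
    (famG N hN n).Adj i j := by
  obtain ⟨T, a, b, hw⟩ := wit_all N hN i j hij (by omega) h
  refine ⟨fun h => by rw [h] at hij; exact lt_irrefl _ hij, ?_⟩
  rcases hw with hw | hw
  · exact sees_of_wit N hN n hn i j T a b hw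
  · exact (sees_of_wit N hN n hn j i T a b hw).symm

/-- earlier neighbours -/
def nb (j : ℕ) : Finset ℕ :=
  if j < 12 then range j else {0, 1, 2, 6, 7, 8, j - 3, j - 2, j - 1}

theorem card_nb (j : ℕ) : #(nb j) = if j < 12 then j else 9 := by
  unfold nb
  split_ifs with h
  · exact card_range j
  · obtain ⟨k, rfl⟩ := Nat.exists_eq_add_of_le (not_lt.1 h)
    have e1 : 12 + k - 3 = k + 9 := by omega
    have e2 : 12 + k - 2 = k + 10 := by omega
    have e3 : 12 + k - 1 = k + 11 := by omega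
    rw [e1, e2, e3]
    repeat rw [card_insert_of_notMem (by simp)]
    simp

theorem sum_nb (n : ℕ) (hn : 12 ≤ n) : ∑ j ∈ range n, #(nb j) = 9 * n - 42 := by
  induction n, hn using Nat.le_induction with
  | base =>
    simp only [card_nb]
    decide
  | succ m hm ih =>
    rw [sum_range_succ, ih, card_nb, if_neg (by omega)]
    omega

theorem sum_nb_small (n : ℕ) (hn : n ≤ 12) : ∑ j ∈ range n, #(nb j) = n * (n - 1) / 2 := by
  simp only [card_nb]
  rw [← Finset.sum_range_id]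
  refine sum_congr rfl fun j hj => ?_
  rw [mem_range] at hj
  rw [if_pos (by omega)]

theorem famG_card (N : ℕ) (hN : 12 ≤ N) (n : ℕ) (hn : n ≤ N) :
    ∑ j ∈ range n, #(nb j) ≤ (famG N hN n).edgeSet.ncard := by
  rw [← card_sigma]
  have hinj : Set.InjOn (fun x : (_ : ℕ) × ℕ => s(x.2, x.1))
      ((range n).sigma nb : Finset ((_ : ℕ) × ℕ)) := by
    rintro ⟨j, i⟩ h ⟨j', i'⟩ h' he
    have hlt : ∀ j i, (⟨j, i⟩ : (_ : ℕ) × ℕ) ∈ (range n).sigma nb → i < j := by
      intro j i h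
      rw [mem_sigma] at h
      have h2 := h.2
      simp only [nb] at h2
      split_ifs at h2 with hc
      · exact mem_range.1 h2
      · simp only [mem_insert, mem_singleton] at h2
        omega
    have h1 := hlt j i (mem_coe.1 h)
    have h2 := hlt j' i' (mem_coe.1 h')
    simp only [Sym2.eq_iff] at he
    rcases he with ⟨rfl, rfl⟩ | ⟨rfl, rfl⟩
    · rfl
    · omega
  rw [← card_image_of_injOn hinj, ← Set.ncard_coe_finset]
  have hsub : (((range n).sigma nb).image (fun x : (_ : ℕ) × ℕ => s(x.2, x.1)) :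
      Set (Sym2 ℕ)) ⊆ (Sym2.map Fin.val) '' (famG N hN n).edgeSet := by
    intro e he
    rw [mem_coe, mem_image] at he
    obtain ⟨⟨j, i⟩, h, rfl⟩ := he
    rw [mem_sigma] at h
    have hj : j < n := mem_range.1 h.1
    have h2 := h.2
    simp only [nb] at h2
    have hcond : i < j ∧ (j < 12 ∨ i = 0 ∨ i = 1 ∨ i = 2 ∨ i = 6 ∨ i = 7 ∨ i = 8 ∨
        i + 1 = j ∨ i + 2 = j ∨ i + 3 = j) := by
      split_ifs at h2 with hc
      · exact ⟨mem_range.1 h2, Or.inl hc⟩
      · simp only [mem_insert, mem_singleton] at h2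
        omega
    refine ⟨s(⟨i, by omega⟩, ⟨j, hj⟩), ?_, ?_⟩
    · rw [SimpleGraph.mem_edgeSet]
      exact famG_adj N hN n hn ⟨i, by omega⟩ ⟨j, hj⟩ hcond.1 hcond.2
    · simp
  exact (Set.ncard_le_ncard hsub (Set.toFinite _)).trans (Set.ncard_image_le (Set.toFinite _))

theorem ncard_le_choose {n : ℕ} (G : SimpleGraph (Fin n)) : G.edgeSet.ncard ≤ n * (n - 1) / 2 := by
  classical
  have h1 := G.card_edgeFinset_le_card_choose_two
  rw [Fintype.card_fin, Nat.choose_two_right] at h1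
  have h2 : G.edgeSet.ncard = #G.edgeFinset := by
    rw [← SimpleGraph.coe_edgeFinset, Set.ncard_coe_finset]
  omega

end Pool.Agent.T9h77.Bar2
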