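import Pool.Agent.T9h77.Bar2Def

/-!
# The extremal family
-/

namespace Pool.Agent.T9h77.Bar2

open Finset

/-- left endpoints -/
def ll (i : ℕ) : ℕ :=
  if i = 0 then 2 else if i = 1 then 0 else if i = 2 then 8 else if i = 3 then 5 else
  if i = 4 then 4 else if i = 5 then 1 else if i = 6 then 7 else if i = 7 then 6 else
  if i = 8 then 3 else i

/-- right endpoints -/
def rr (N i : ℕ) : ℕ :=
  if i = 0 then 2 * N + 2 else if i = 1 then 2 * N + 1 else if i = 2 then 2 * N + 2 else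
  if i = 3 then N + 3 else if i = 4 then N + 2 else if i = 5 then N + 1 else
  if i = 6 then 2 * N + 2 else if i = 7 then 2 * N + 2 else if i = 8 then 2 * N + 2 else N + i

/-- heights -/
def yy (N i : ℕ) : ℕ :=
  if i = 6 then N + 6 else if i = 7 then N + 7 else if i = 8 then N + 8 else i

theorem tab (N w : ℕ) :
    (w = 0 ∧ ll w = 2 ∧ rr N w = 2 * N + 2 ∧ yy N w = 0) ∨
    (w = 1 ∧ ll w = 0 ∧ rr N w = 2 * N + 1 ∧ yy N w = 1) ∨
    (w = 2 ∧ ll w = 8 ∧ rr N w = 2 * N + 2 ∧ yy N w = 2) ∨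
    (w = 3 ∧ ll w = 5 ∧ rr N w = N + 3 ∧ yy N w = 3) ∨
    (w = 4 ∧ ll w = 4 ∧ rr N w = N + 2 ∧ yy N w = 4) ∨
    (w = 5 ∧ ll w = 1 ∧ rr N w = N + 1 ∧ yy N w = 5) ∨
    (w = 6 ∧ ll w = 7 ∧ rr N w = 2 * N + 2 ∧ yy N w = N + 6) ∨
    (w = 7 ∧ ll w = 6 ∧ rr N w = 2 * N + 2 ∧ yy N w = N + 7) ∨
    (w = 8 ∧ ll w = 3 ∧ rr N w = 2 * N + 2 ∧ yy N w = N + 8) ∨
    (9 ≤ w ∧ ll w = w ∧ rr N w = N + w ∧ yy N w = w) := by
  match w with
  | 0 => simp [ll, rr, yy]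
  | 1 => simp [ll, rr, yy]
  | 2 => simp [ll, rr, yy]
  | 3 => simp [ll, rr, yy]
  | 4 => simp [ll, rr, yy]
  | 5 => simp [ll, rr, yy]
  | 6 => simp [ll, rr, yy]
  | 7 => simp [ll, rr, yy]
  | 8 => simp [ll, rr, yy]
  | k + 9 => simp [ll, rr, yy]

/-- A witness for the visibility of the pair `i`, `j`. -/
def Wit (N i j T a b : ℕ) : Prop :=
  ll i ≤ T ∧ ll j ≤ T ∧ T < rr N i ∧ T < rr N j ∧ yy N i < yy N j ∧
    ∀ w, w < N → w ≠ i → w ≠ j → ll w ≤ T → T < rr N w → yy N i < yy N w → yy N w < yy N j →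
      w = a ∨ w = b

theorem wit_const (N : ℕ) (hN : 12 ≤ N) : ∀ e ∈ ([(0,1,2,1,1), (0,2,8,1,1), (0,3,5,1,1),
    (0,4,4,1,1), (0,5,2,1,1), (0,8,3,1,5), (1,2,8,1,1), (1,3,5,1,1), (1,4,4,1,1), (1,5,2,1,1),
    (1,8,3,5,5), (2,3,8,1,1), (2,4,8,3,3), (2,5,8,3,4), (3,4,5,1,1), (3,5,5,4,4), (3,6,7,4,5),
    (3,7,6,4,5), (3,8,5,4,5), (4,5,4,1,1), (4,6,7,5,5), (4,7,6,5,5), (4,8,4,5,5), (5,6,7,1,1),
    (5,7,6,1,1), (5,8,3,1,1), (6,7,7,1,1), (6,8,7,7,7), (7,8,6,1,1),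
    (5,9,9,1,1), (4,9,9,5,5), (3,9,9,4,5), (5,10,10,9,9), (4,10,10,5,9), (5,11,11,9,10)] :
      List (ℕ × ℕ × ℕ × ℕ × ℕ)),
    Wit N e.1 e.2.1 e.2.2.1 e.2.2.2.1 e.2.2.2.2 := by
  intro e he
  have tabN := tab N
  have y0 : yy N 0 = 0 := by simp [yy]
  have y1 : yy N 1 = 1 := by simp [yy]
  have y2 : yy N 2 = 2 := by simp [yy]
  have y3 : yy N 3 = 3 := by simp [yy]
  have y4 : yy N 4 = 4 := by simp [yy]
  have y5 : yy N 5 = 5 := by simp [yy]
  have y6 : yy N 6 = N + 6 := by simp [yy]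
  have y7 : yy N 7 = N + 7 := by simp [yy]
  have y8 : yy N 8 = N + 8 := by simp [yy]
  have y9 : yy N 9 = 9 := by simp [yy]
  have y10 : yy N 10 = 10 := by simp [yy]
  have y11 : yy N 11 = 11 := by simp [yy]
  simp only [List.mem_cons, List.mem_nil_iff, or_false] at he
  rcases he with rfl | rfl | rfl | rfl | rfl | rfl | rfl | rfl | rfl | rfl | rfl | rfl | rfl |
    rfl | rfl | rfl | rfl | rfl | rfl | rfl | rfl | rfl | rfl | rfl | rfl | rfl | rfl | rfl |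
    rfl | rfl | rfl | rfl | rfl | rfl | rfl <;>
  · refine ⟨by simp [ll], by simp [ll], ?_, ?_, ?_, ?_⟩
    · simp only [rr]; simp; try omega
    · simp only [rr]; simp; try omega
    · dsimp only; omega
    · intro w hw h1 h2 h3 h4 h5 h6
      have := tabN w
      dsimp only at *
      omega

/-- removal-time pairs -/
theorem wit_var (N : ℕ) (hN : 12 ≤ N) : ∀ e ∈ ([(0,6,2*N,1,2), (0,7,2*N+1,2,6), (1,6,2*N,2,2),
    (1,7,2*N,2,6), (2,6,2*N,1,1), (2,7,2*N,6,6), (2,8,2*N,6,7), (3,10,N+1,4,9), (4,11,N+1,9,10),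
    (3,11,N+2,9,10)] : List (ℕ × ℕ × ℕ × ℕ × ℕ)),
    Wit N e.1 e.2.1 e.2.2.1 e.2.2.2.1 e.2.2.2.2 := by
  intro e he
  have tabN := tab N
  have y0 : yy N 0 = 0 := by simp [yy]
  have y1 : yy N 1 = 1 := by simp [yy]
  have y2 : yy N 2 = 2 := by simp [yy]
  have y3 : yy N 3 = 3 := by simp [yy]
  have y4 : yy N 4 = 4 := by simp [yy]
  have y6 : yy N 6 = N + 6 := by simp [yy]
  have y7 : yy N 7 = N + 7 := by simp [yy]
  have y8 : yy N 8 = N + 8 := by simp [yy]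
  have y10 : yy N 10 = 10 := by simp [yy]
  have y11 : yy N 11 = 11 := by simp [yy]
  simp only [List.mem_cons, List.mem_nil_iff, or_false] at he
  rcases he with rfl | rfl | rfl | rfl | rfl | rfl | rfl | rfl | rfl | rfl <;>
  · refine ⟨?_, ?_, ?_, ?_, ?_, ?_⟩
    · simp only [ll]; simp; try omega
    · simp only [ll]; simp; try omega
    · simp only [rr]; simp; try omega
    · simp only [rr]; simp; try omega
    · dsimp only; omega
    · intro w hw h1 h2 h3 h4 h5 h6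
      have := tabN w
      dsimp only at *
      omega

/-- the bars `6, 7, 8` see every later bar -/
theorem wit_bot (N j : ℕ) (hj : 9 ≤ j) (hjN : j < N) (i : ℕ) (hi : i = 6 ∨ i = 7 ∨ i = 8) :
    Wit N j i j 6 7 := by
  have tabN := tab N
  have y6 : yy N 6 = N + 6 := by simp [yy]
  have y7 : yy N 7 = N + 7 := by simp [yy]
  have y8 : yy N 8 = N + 8 := by simp [yy]
  have hj' := tabN j
  have hi' := tabN i
  refine ⟨by omega, by omega, by omega, by omega, by omega, ?_⟩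
  intro w hw h1 h2 h3 h4 h5 h6
  have := tabN w
  omega

/-- the bars `0, 1, 2` see every later bar -/
theorem wit_top (N j : ℕ) (hN : 12 ≤ N) (hj : 9 ≤ j) (hjN : j < N) (i : ℕ)
    (hi : i = 0 ∨ i = 1 ∨ i = 2) : Wit N i j (N + j - 1) 1 2 := by
  have tabN := tab N
  have hj' := tabN j
  have hi' := tabN i
  refine ⟨by omega, by omega, by omega, by omega, by omega, ?_⟩
  intro w hw h1 h2 h3 h4 h5 h6
  have := tabN w
  omega

/-- consecutive bars see each other -/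
theorem wit_near (N i j : ℕ) (hi : 9 ≤ i) (hij : i < j) (hij' : j ≤ i + 3) (hjN : j < N) :
    Wit N i j j (j - 2) (j - 1) := by
  have tabN := tab N
  have hj' := tabN j
  have hi' := tabN i
  refine ⟨by omega, by omega, by omega, by omega, by omega, ?_⟩
  intro w hw h1 h2 h3 h4 h5 h6
  have := tabN w
  omega

theorem small_list : ∀ j < 9, ∀ i < j, ∃ e ∈ ([(0,1,2,1,1), (0,2,8,1,1), (0,3,5,1,1),
    (0,4,4,1,1), (0,5,2,1,1), (0,8,3,1,5), (1,2,8,1,1), (1,3,5,1,1), (1,4,4,1,1), (1,5,2,1,1),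
    (1,8,3,5,5), (2,3,8,1,1), (2,4,8,3,3), (2,5,8,3,4), (3,4,5,1,1), (3,5,5,4,4), (3,6,7,4,5),
    (3,7,6,4,5), (3,8,5,4,5), (4,5,4,1,1), (4,6,7,5,5), (4,7,6,5,5), (4,8,4,5,5), (5,6,7,1,1),
    (5,7,6,1,1), (5,8,3,1,1), (6,7,7,1,1), (6,8,7,7,7), (7,8,6,1,1),
    (0,6,0,0,0), (0,7,0,0,0), (1,6,0,0,0), (1,7,0,0,0), (2,6,0,0,0), (2,7,0,0,0), (2,8,0,0,0)] :
      List (ℕ × ℕ × ℕ × ℕ × ℕ)), e.1 = i ∧ e.2.1 = j := by decide

/-- All the pairs we need. -/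
theorem wit_all (N : ℕ) (hN : 12 ≤ N) (i j : ℕ) (hij : i < j) (hjN : j < N)
    (h : j < 12 ∨ i = 0 ∨ i = 1 ∨ i = 2 ∨ i = 6 ∨ i = 7 ∨ i = 8 ∨ i + 1 = j ∨ i + 2 = j ∨
      i + 3 = j) : ∃ T a b, Wit N i j T a b ∨ Wit N j i T a b := by
  by_cases hj9 : j < 9
  · obtain ⟨e, he, rfl, rfl⟩ := small_list j hj9 i hij
    by_cases hc : e.2.2.1 = 0
    · have hv := wit_var N hN
      simp only [List.mem_cons, List.mem_nil_iff, or_false] at he
      rcases he with rfl | rfl | rfl | rfl | rfl | rfl | rfl | rfl | rfl | rfl | rfl | rfl | rfl |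
        rfl | rfl | rfl | rfl | rfl | rfl | rfl | rfl | rfl | rfl | rfl | rfl | rfl | rfl | rfl |
        rfl | rfl | rfl | rfl | rfl | rfl | rfl | rfl <;> simp only [reduceCtorEq] at hc
      all_goals first
        | exact ⟨_, _, _, Or.inl (hv (0,6,2*N,1,2) (by simp))⟩
        | exact ⟨_, _, _, Or.inl (hv (0,7,2*N+1,2,6) (by simp))⟩
        | exact ⟨_, _, _, Or.inl (hv (1,6,2*N,2,2) (by simp))⟩
        | exact ⟨_, _, _, Or.inl (hv (1,7,2*N,2,6) (by simp))⟩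
        | exact ⟨_, _, _, Or.inl (hv (2,6,2*N,1,1) (by simp))⟩
        | exact ⟨_, _, _, Or.inl (hv (2,7,2*N,6,6) (by simp))⟩
        | exact ⟨_, _, _, Or.inl (hv (2,8,2*N,6,7) (by simp))⟩
    · have hv := wit_const N hN e
      refine ⟨_, _, _, Or.inl (hv ?_)⟩
      clear hv
      simp only [List.mem_cons, List.mem_nil_iff, or_false] at he ⊢
      rcases he with rfl | rfl | rfl | rfl | rfl | rfl | rfl | rfl | rfl | rfl | rfl | rfl | rfl |
        rfl | rfl | rfl | rfl | rfl | rfl | rfl | rfl | rfl | rfl | rfl | rfl | rfl | rfl | rfl |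
        rfl | rfl | rfl | rfl | rfl | rfl | rfl | rfl <;> simp at hc ⊢
  · push Not at hj9
    by_cases h1 : i ≤ 2
    · exact ⟨_, _, _, Or.inl (wit_top N j hN hj9 hjN i (by omega))⟩
    by_cases h2 : 6 ≤ i ∧ i ≤ 8
    · exact ⟨_, _, _, Or.inr (wit_bot N j hj9 hjN i (by omega))⟩
    by_cases h3 : 9 ≤ i
    · exact ⟨_, _, _, Or.inl (wit_near N i j h3 hij (by omega) hjN)⟩
    · have hj : j < 12 := by omega
      have hi : i = 3 ∨ i = 4 ∨ i = 5 := by omega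
      have hj' : j = 9 ∨ j = 10 ∨ j = 11 := by omega
      have hc := wit_const N hN
      have hv := wit_var N hN
      rcases hi with rfl | rfl | rfl <;> rcases hj' with rfl | rfl | rfl
      · exact ⟨_, _, _, Or.inl (hc (3,9,9,4,5) (by simp))⟩
      · exact ⟨_, _, _, Or.inl (hv (3,10,N+1,4,9) (by simp))⟩
      · exact ⟨_, _, _, Or.inl (hv (3,11,N+2,9,10) (by simp))⟩
      · exact ⟨_, _, _, Or.inl (hc (4,9,9,5,5) (by simp))⟩
      · exact ⟨_, _, _, Or.inl (hc (4,10,10,5,9) (by simp))⟩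
      · exact ⟨_, _, _, Or.inl (hv (4,11,N+1,9,10) (by simp))⟩
      · exact ⟨_, _, _, Or.inl (hc (5,9,9,1,1) (by simp))⟩
      · exact ⟨_, _, _, Or.inl (hc (5,10,10,9,9) (by simp))⟩
      · exact ⟨_, _, _, Or.inl (hc (5,11,11,9,10) (by simp))⟩

end Pool.Agent.T9h77.Bar2
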