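import Pool.Agent.T9h77.Bar2Upper

/-!
# Discrete model of bar 2-visibility: time line and the main inequality
-/

namespace Pool.Agent.T9h77.Bar2

open Finset

set_option linter.unusedSectionVars false

variable {α : Type*} [LinearOrder α]

/-- The stack at time `t`. -/
def sl (L R : α → ℕ) (V : Finset α) (t : ℕ) : Finset α := {v ∈ V | L v < t ∧ t ≤ R v}

/-- number of insertions before `t` -/
def ins (L : α → ℕ) (V : Finset α) (t : ℕ) : ℕ := #{v ∈ V | L v < t}

/-- number of elements not yet removed at `t` -/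
def rem (R : α → ℕ) (V : Finset α) (t : ℕ) : ℕ := #{v ∈ V | t ≤ R v}

/-- All endpoints distinct and every interval nondegenerate. -/
structure Gen (L R : α → ℕ) (V : Finset α) : Prop where
  lt : ∀ v ∈ V, L v < R v
  injL : ∀ u ∈ V, ∀ v ∈ V, L u = L v → u = v
  injR : ∀ u ∈ V, ∀ v ∈ V, R u = R v → u = v
  ne : ∀ u ∈ V, ∀ v ∈ V, L u ≠ R v

theorem Gen.mono {L R : α → ℕ} {V W : Finset α} (h : Gen L R V) (hW : W ⊆ V) : Gen L R W :=
  ⟨fun v hv => h.lt v (hW hv), fun u hu v hv => h.injL u (hW hu) v (hW hv),
    fun u hu v hv => h.injR u (hW hu) v (hW hv), fun u hu v hv => h.ne u (hW hu) v (hW hv)⟩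

open Classical in
/-- The set of pairs visible at some time. -/
noncomputable def Ed (L R : α → ℕ) (V : Finset α) : Finset (α × α) :=
  (V ×ˢ V).filter (fun p => ∃ t, p ∈ vis (sl L R V t))

theorem sl_subset (L R : α → ℕ) (V : Finset α) (t : ℕ) : sl L R V t ⊆ V := filter_subset _ _

theorem mem_sl {L R : α → ℕ} {V : Finset α} {t : ℕ} {v : α} :
    v ∈ sl L R V t ↔ v ∈ V ∧ L v < t ∧ t ≤ R v := by simp [sl]

theorem mem_Ed {L R : α → ℕ} {V : Finset α} {p : α × α} :
    p ∈ Ed L R V ↔ ∃ t, p ∈ vis (sl L R V t) := by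
  classical
  simp only [Ed, mem_filter, mem_product]
  constructor
  · exact fun h => h.2
  · rintro ⟨t, ht⟩
    refine ⟨?_, t, ht⟩
    obtain ⟨u, w⟩ := p
    obtain ⟨h1, h2, _, _⟩ := mem_vis.1 ht
    exact ⟨sl_subset _ _ _ _ h1, sl_subset _ _ _ _ h2⟩

/-- One step of the time line. -/
theorem step {L R : α → ℕ} {V : Finset α} (h : Gen L R V) (t : ℕ) :
    (∃ z, z ∉ sl L R V t ∧ sl L R V (t + 1) = insert z (sl L R V t) ∧
        ins L V (t + 1) = ins L V t + 1 ∧ rem R V (t + 1) = rem R V t ∧ z ∈ V ∧ L z = t) ∨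
    (∃ z, z ∉ sl L R V (t + 1) ∧ sl L R V t = insert z (sl L R V (t + 1)) ∧
        ins L V (t + 1) = ins L V t ∧ rem R V (t + 1) + 1 = rem R V t ∧ z ∈ V ∧ R z = t) ∨
    (sl L R V (t + 1) = sl L R V t ∧ ins L V (t + 1) = ins L V t ∧ rem R V (t + 1) = rem R V t) := by
  by_cases h1 : ∃ z ∈ V, L z = t
  · obtain ⟨z, hz, hzt⟩ := h1
    left
    have hR : ∀ v ∈ V, R v ≠ t := fun v hv he => h.ne z hz v hv (by omega)
    have hL : ∀ v ∈ V, L v = t → v = z := fun v hv he => h.injL v hv z hz (by omega)
    refine ⟨z, ?_, ?_, ?_, ?_, hz, hzt⟩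
    · rw [mem_sl]; omega
    · ext v
      rw [mem_insert, mem_sl, mem_sl]
      constructor
      · rintro ⟨hv, h2, h3⟩
        by_cases he : L v = t
        · exact Or.inl (hL v hv he)
        · right; refine ⟨hv, by omega, by omega⟩
      · rintro (rfl | ⟨hv, h2, h3⟩)
        · have := h.lt v hz
          exact ⟨hz, by omega, by omega⟩
        · have := hR v hv
          exact ⟨hv, by omega, by omega⟩
    · unfold ins
      rw [← card_insert_of_notMem (s := {v ∈ V | L v < t}) (a := z)]
      · congr 1
        ext v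
        rw [mem_insert, mem_filter, mem_filter]
        constructor
        · rintro ⟨hv, h2⟩
          by_cases he : L v = t
          · exact Or.inl (hL v hv he)
          · right; exact ⟨hv, by omega⟩
        · rintro (rfl | ⟨hv, h2⟩)
          · exact ⟨hz, by omega⟩
          · exact ⟨hv, by omega⟩
      · rw [mem_filter]; omega
    · unfold rem
      congr 1
      ext v
      rw [mem_filter, mem_filter]
      constructor
      · rintro ⟨hv, h2⟩
        exact ⟨hv, by omega⟩
      · rintro ⟨hv, h2⟩
        have := hR v hv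
        exact ⟨hv, by omega⟩
  · by_cases h2 : ∃ z ∈ V, R z = t
    · obtain ⟨z, hz, hzt⟩ := h2
      right; left
      have hL : ∀ v ∈ V, L v ≠ t := fun v hv he => h1 ⟨v, hv, he⟩
      have hR : ∀ v ∈ V, R v = t → v = z := fun v hv he => h.injR v hv z hz (by omega)
      refine ⟨z, ?_, ?_, ?_, ?_, hz, hzt⟩
      · rw [mem_sl]; omega
      · ext v
        rw [mem_insert, mem_sl, mem_sl]
        constructor
        · rintro ⟨hv, h2, h3⟩
          by_cases he : R v = t
          · exact Or.inl (hR v hv he)
          · right; refine ⟨hv, by omega, by omega⟩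
        · rintro (rfl | ⟨hv, h2, h3⟩)
          · have := h.lt v hz
            exact ⟨hz, by omega, by omega⟩
          · have := hL v hv
            exact ⟨hv, by omega, by omega⟩
      · unfold ins
        congr 1
        ext v
        rw [mem_filter, mem_filter]
        constructor
        · rintro ⟨hv, h2⟩
          have := hL v hv
          exact ⟨hv, by omega⟩
        · rintro ⟨hv, h2⟩
          exact ⟨hv, by omega⟩
      · unfold rem
        rw [← card_insert_of_notMem (s := {v ∈ V | t + 1 ≤ R v}) (a := z)]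
        · congr 1
          ext v
          rw [mem_insert, mem_filter, mem_filter]
          constructor
          · rintro (rfl | ⟨hv, h2⟩)
            · exact ⟨hz, by omega⟩
            · exact ⟨hv, by omega⟩
          · rintro ⟨hv, h2⟩
            by_cases he : R v = t
            · exact Or.inl (hR v hv he)
            · right; exact ⟨hv, by omega⟩
        · rw [mem_filter]; omega
    · right; right
      have hL : ∀ v ∈ V, L v ≠ t := fun v hv he => h1 ⟨v, hv, he⟩
      have hR : ∀ v ∈ V, R v ≠ t := fun v hv he => h2 ⟨v, hv, he⟩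
      refine ⟨?_, ?_, ?_⟩
      · ext v
        rw [mem_sl, mem_sl]
        constructor
        · rintro ⟨hv, h2, h3⟩
          have := hL v hv
          exact ⟨hv, by omega, by omega⟩
        · rintro ⟨hv, h2, h3⟩
          have := hR v hv
          exact ⟨hv, by omega, by omega⟩
      · unfold ins
        congr 1
        ext v
        rw [mem_filter, mem_filter]
        constructor
        · rintro ⟨hv, h2⟩
          have := hL v hv
          exact ⟨hv, by omega⟩
        · rintro ⟨hv, h2⟩
          exact ⟨hv, by omega⟩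
      · unfold rem
        congr 1
        ext v
        rw [mem_filter, mem_filter]
        constructor
        · rintro ⟨hv, h2⟩
          exact ⟨hv, by omega⟩
        · rintro ⟨hv, h2⟩
          have := hR v hv
          exact ⟨hv, by omega⟩

/-- The pairs collected from `t0` to `t`, starting with all pairs of `F`. -/
def Mid (L R : α → ℕ) (V F : Finset α) (t0 t : ℕ) : Finset (α × α) :=
  prs F ∪ (Icc t0 t).biUnion (fun s => vis (sl L R V s))

theorem ins_mono (L : α → ℕ) (V : Finset α) {s t : ℕ} (h : s ≤ t) : ins L V s ≤ ins L V t := by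
  apply card_le_card
  intro v
  rw [mem_filter, mem_filter]
  rintro ⟨h1, h2⟩
  exact ⟨h1, by omega⟩

theorem rem_anti (R : α → ℕ) (V : Finset α) {s t : ℕ} (h : s ≤ t) : rem R V t ≤ rem R V s := by
  apply card_le_card
  intro v
  rw [mem_filter, mem_filter]
  rintro ⟨h1, h2⟩
  exact ⟨h1, by omega⟩

/-- The middle invariant. -/
theorem mid_inv {L R : α → ℕ} {V : Finset α} (h : Gen L R V) {t0 T : ℕ} {A B : Finset α}
    (h0 : #(sl L R V t0) = 6) (hr0 : rem R V t0 = #V)
    (hA : psiL A (sl L R V t0) = 6) (hB : psiH B (sl L R V t0) = 6)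
    (hi6 : ins L V t0 = 6)
    (hbig : ∀ t, t0 ≤ t → t ≤ T → 6 ≤ #(sl L R V t)) (hT : t0 ≤ T) :
    #(Mid L R V (sl L R V t0) t0 T) + 12 + 3 * rem R V T + 36 ≤
      15 + 6 * ins L V T + 3 * #V + psiL A (sl L R V T) + psiH B (sl L R V T) := by
  induction T, hT using Nat.le_induction with
  | base =>
    have hM : Mid L R V (sl L R V t0) t0 t0 = prs (sl L R V t0) := by
      unfold Mid
      rw [Icc_self, singleton_biUnion]
      exact union_eq_left.2 (vis_subset_prs (Subset.refl _))
    have h1 := card_prs (sl L R V t0)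
    rw [h0] at h1
    rw [hM, hA, hB, hi6, hr0]
    omega
  | succ t ht ih =>
    have ih' := ih (fun s h1 h2 => hbig s h1 (by omega))
    have hM : #(Mid L R V (sl L R V t0) t0 (t + 1)) ≤ #(Mid L R V (sl L R V t0) t0 t) +
        #(vis (sl L R V (t + 1)) \ vis (sl L R V t)) := by
      refine le_trans (card_le_card ?_) (card_union_le _ _)
      intro p hp
      unfold Mid at hp ⊢
      simp only [mem_union, mem_biUnion, mem_Icc, mem_sdiff] at hp ⊢
      rcases hp with hp | ⟨s, hs, hp⟩
      · exact Or.inl (Or.inl hp)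
      · by_cases hst : s ≤ t
        · exact Or.inl (Or.inr ⟨s, ⟨hs.1, hst⟩, hp⟩)
        · have hs' : s = t + 1 := by omega
          subst hs'
          by_cases hq : p ∈ vis (sl L R V t)
          · exact Or.inl (Or.inr ⟨t, ⟨ht, le_refl _⟩, hq⟩)
          · exact Or.inr ⟨hp, hq⟩
    rcases step h t with ⟨z, hz, hS, hI, hR, _, _⟩ | ⟨z, hz, hS, hI, hR, _, _⟩ | ⟨hS, hI, hR⟩
    · have b1 := births_insert hz
      have b2 := psiL_le_insert (A := A) hz
      have b3 := psiH_le_insert (A := B) hz
      rw [← hS] at b1 b2 b3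
      rw [hI, hR]
      omega
    · have hb6 := hbig t ht (by omega)
      have hc : #(sl L R V t) = #(sl L R V (t + 1)) + 1 := by
        rw [hS, card_insert_of_notMem hz]
      have b1 := births_remove hz (by omega)
      have b2 := psiL_insert_le (A := A) hz
      have b3 := psiH_insert_le (A := B) hz
      rw [← hS] at b1 b2 b3
      rw [hI]
      omega
    · rw [hS, Finset.sdiff_self] at hM
      rw [hS, hI, hR]
      simp only [card_empty, add_zero] at hM
      omega

/-- The final invariant, backwards in time. -/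
theorem fin_inv {L R : α → ℕ} {V : Finset α} (h : Gen L R V) {t2 : ℕ} {A B : Finset α}
    (h0 : #(sl L R V t2) = 6)
    (hA : psiL A (sl L R V t2) = 6) (hB : psiH B (sl L R V t2) = 6) (k : ℕ) (hk : k ≤ t2)
    (hL : ∀ v ∈ V, L v < t2 - k) :
    #(Mid L R V (sl L R V t2) (t2 - k) t2) + 12 + 36 ≤
      15 + 6 * #(sl L R V (t2 - k)) + psiL A (sl L R V (t2 - k)) +
        psiH B (sl L R V (t2 - k)) := by
  induction k with
  | zero =>
    have hM : Mid L R V (sl L R V t2) t2 t2 = prs (sl L R V t2) := by
      unfold Mid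
      rw [Icc_self, singleton_biUnion]
      exact union_eq_left.2 (vis_subset_prs (Subset.refl _))
    have h1 := card_prs (sl L R V t2)
    rw [h0] at h1
    rw [Nat.sub_zero, hM, hA, hB]
    omega
  | succ k ih =>
    obtain ⟨t, ht⟩ : ∃ t, t2 - (k + 1) = t := ⟨_, rfl⟩
    have ht' : t2 - k = t + 1 := by omega
    have ih' := ih (by omega) (fun v hv => by have := hL v hv; omega)
    rw [ht'] at ih'
    rw [ht]
    rw [ht] at hL
    have hM : #(Mid L R V (sl L R V t2) t t2) ≤ #(Mid L R V (sl L R V t2) (t + 1) t2) +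
        #(vis (sl L R V t) \ vis (sl L R V (t + 1))) := by
      refine le_trans (card_le_card ?_) (card_union_le _ _)
      intro p hp
      unfold Mid at hp ⊢
      simp only [mem_union, mem_biUnion, mem_Icc, mem_sdiff] at hp ⊢
      rcases hp with hp | ⟨s, hs, hp⟩
      · exact Or.inl (Or.inl hp)
      · by_cases hst : t + 1 ≤ s
        · exact Or.inl (Or.inr ⟨s, ⟨hst, hs.2⟩, hp⟩)
        · have hs' : s = t := by omega
          subst hs'
          by_cases hq : p ∈ vis (sl L R V (s + 1))
          · exact Or.inl (Or.inr ⟨s + 1, ⟨le_refl _, by omega⟩, hq⟩)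
          · exact Or.inr ⟨hp, hq⟩
    rcases step h t with ⟨z, hz, hS, hI, hR, hzV, hzt⟩ | ⟨z, hz, hS, hI, hR, _, _⟩ | ⟨hS, hI, hR⟩
    · exfalso
      have := hL z hzV
      omega
    · have hc : #(sl L R V t) = #(sl L R V (t + 1)) + 1 := by
        rw [hS, card_insert_of_notMem hz]
      have b1 := births_insert hz
      have b2 := psiL_le_insert (A := A) hz
      have b3 := psiH_le_insert (A := B) hz
      rw [← hS] at b1 b2 b3
      omega
    · rw [hS, Finset.sdiff_self] at hM
      rw [hS] at ih'
      simp only [card_empty, add_zero] at hM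
      omega

end Pool.Agent.T9h77.Bar2
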