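import Pool.Agent.T9h77.Bar2Disc

/-!
# Discrete model of bar 2-visibility: the upper bound
-/

namespace Pool.Agent.T9h77.Bar2

open Finset

variable {α : Type*} [LinearOrder α]

/-- `g m = Σ_{i<m} min 3 i` -/
theorem sum_min_ge (m : ℕ) : 3 * m ≤ (∑ i ∈ range m, min 3 i) + 6 := by
  have h : ∀ m, 3 * (m + 3) ≤ (∑ i ∈ range (m + 3), min 3 i) + 6 := by
    intro m
    induction m with
    | zero => simp [sum_range_succ]
    | succ k ih =>
      rw [show k + 1 + 3 = (k + 3) + 1 by ring, sum_range_succ]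
      have : min 3 (k + 3) = 3 := by omega
      omega
  match m with
  | 0 => simp
  | 1 => simp
  | 2 => simp [sum_range_succ]
  | k + 3 => exact h k

theorem card_vis_ge_sum (S : Finset α) : ∑ i ∈ range #S, min 3 i ≤ #(vis S) := by
  induction S using Finset.induction_on_max with
  | empty => simp
  | insert a s ha ih =>
    have hna : a ∉ s := fun h => lt_irrefl _ (ha a h)
    rw [card_insert_of_notMem hna, sum_range_succ]
    have h1 : vis s ∪ {u ∈ s | u < a ∧ btw s u a ≤ 2}.image (fun u => (u, a)) ⊆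
        vis (insert a s) := by
      intro p hp
      rw [mem_union, mem_image] at hp
      rcases hp with hp | ⟨u, hu, rfl⟩
      · obtain ⟨u, w⟩ := p
        obtain ⟨h1, h2, h3, h4⟩ := mem_vis.1 hp
        refine mem_vis.2 ⟨mem_insert_of_mem h1, mem_insert_of_mem h2, h3, ?_⟩
        unfold btw at h4 ⊢
        rw [filter_insert, if_neg]
        · exact h4
        · rintro ⟨_, h⟩
          exact absurd h (not_lt.2 (ha w h2).le)
      · rw [mem_filter] at hu
        refine mem_vis.2 ⟨mem_insert_of_mem hu.1, mem_insert_self _ _, hu.2.1, ?_⟩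
        have h4 := hu.2.2
        unfold btw at h4 ⊢
        rw [filter_insert, if_neg]
        · exact h4
        · rintro ⟨_, h⟩
          exact absurd h (lt_irrefl _)
    have h2 := card_le_card h1
    rw [card_union_of_disjoint, card_image_of_injective, card_near_lo] at h2
    · have h3 : lo s a = #s := by
        unfold lo
        rw [filter_true_of_mem ha]
      rw [h3] at h2
      omega
    · intro u u' h
      exact (Prod.mk.inj h).1
    · rw [disjoint_left]
      rintro ⟨u, w⟩ hp hq
      rw [mem_image] at hq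
      obtain ⟨v, _, hv⟩ := hq
      have := (mem_vis.1 hp).2.1
      rw [← (Prod.mk.inj hv).2] at this
      exact hna this

theorem card_vis_ge (S : Finset α) : 3 * #S ≤ #(vis S) + 6 := by
  have h1 := card_vis_ge_sum S
  have h2 := sum_min_ge #S
  omega

/-- The potential of the full set. -/
theorem psiL_top {S : Finset α} (h : 3 ≤ #S) : psiL {x ∈ S | lo S x < 3} S = 6 := by
  unfold psiL
  have h1 : ∑ x ∈ S.filter (· ∈ {x ∈ S | lo S x < 3}), (3 - lo S x) =
      ∑ x ∈ S, (3 - lo S x) := by
    apply sum_subset (filter_subset _ _)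
    intro x hx hx'
    simp only [mem_filter, not_and, not_lt] at hx'
    have := hx' hx hx
    omega
  rw [h1]
  have h2 := sum_rank_below (fun i => 3 - i) S
  have h3 : ∑ i ∈ range #S, (3 - i) = 6 := by
    obtain ⟨k, hk⟩ := Nat.exists_eq_add_of_le h
    rw [hk, sum_range_add]
    simp [sum_range_succ]
  rw [h3] at h2
  exact h2

theorem psiH_top {S : Finset α} (h : 3 ≤ #S) : psiH {x ∈ S | hi S x < 3} S = 6 := by
  unfold psiH
  have h1 : ∑ x ∈ S.filter (· ∈ {x ∈ S | hi S x < 3}), (3 - hi S x) =
      ∑ x ∈ S, (3 - hi S x) := by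
    apply sum_subset (filter_subset _ _)
    intro x hx hx'
    simp only [mem_filter, not_and, not_lt] at hx'
    have := hx' hx hx
    omega
  rw [h1]
  have h2 := sum_rank_above (fun i => 3 - i) S
  have h3 : ∑ i ∈ range #S, (3 - i) = 6 := by
    obtain ⟨k, hk⟩ := Nat.exists_eq_add_of_le h
    rw [hk, sum_range_add]
    simp [sum_range_succ]
  rw [h3] at h2
  exact h2

theorem sum_rank_le (S : Finset α) : ∑ x ∈ S, (3 - lo S x) ≤ 6 := by
  have h2 := sum_rank_below (fun i => 3 - i) S
  have h3 : ∀ m, ∑ i ∈ range m, (3 - i) ≤ 6 := by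
    intro m
    match m with
    | 0 => simp
    | 1 => simp
    | 2 => simp [sum_range_succ]
    | k + 3 =>
      rw [add_comm, sum_range_add]
      simp [sum_range_succ]
  have h4 : ∑ x ∈ S, (3 - lo S x) = ∑ i ∈ range #S, (3 - i) := h2
  rw [h4]; exact h3 _

theorem sum_rank_le' (S : Finset α) : ∑ x ∈ S, (3 - hi S x) ≤ 6 := by
  have h2 := sum_rank_above (fun i => 3 - i) S
  have h3 : ∀ m, ∑ i ∈ range m, (3 - i) ≤ 6 := by
    intro m
    match m with
    | 0 => simp
    | 1 => simp
    | 2 => simp [sum_range_succ]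
    | k + 3 =>
      rw [add_comm, sum_range_add]
      simp [sum_range_succ]
  have h4 : ∑ x ∈ S, (3 - hi S x) = ∑ i ∈ range #S, (3 - i) := h2
  rw [h4]; exact h3 _

/-- The bound for the potential of a set of `m` elements. -/
def hb (m : ℕ) : ℕ := ∑ i ∈ range m, (3 - i)

theorem hb_range : ∀ I ∈ (range 3).powerset, ∑ i ∈ I, (3 - i) ≤ hb #I := by decide

theorem hb_mul : ∀ x ∈ range 4, ∀ y ∈ range 4, hb x + hb y ≤ x * y + 6 := by decide

theorem lo_inj {S : Finset α} {x y : α} (hx : x ∈ S) (hy : y ∈ S) (h : lo S x = lo S y) :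
    x = y := by
  by_contra hne
  wlog hlt : x < y generalizing x y
  · exact this hy hx h.symm (Ne.symm hne) (lt_of_le_of_ne (not_lt.1 hlt) (Ne.symm hne))
  have : lo S x < lo S y := by
    apply card_lt_card
    rw [ssubset_iff_of_subset]
    · exact ⟨x, by simp [hx, hlt], by simp⟩
    · intro z
      simp only [mem_filter]
      rintro ⟨h1, h2⟩
      exact ⟨h1, h2.trans hlt⟩
  omega

theorem hi_inj {S : Finset α} {x y : α} (hx : x ∈ S) (hy : y ∈ S) (h : hi S x = hi S y) :
    x = y := by
  by_contra hne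
  wlog hlt : x < y generalizing x y
  · exact this hy hx h.symm (Ne.symm hne) (lt_of_le_of_ne (not_lt.1 hlt) (Ne.symm hne))
  have : hi S y < hi S x := by
    apply card_lt_card
    rw [ssubset_iff_of_subset]
    · exact ⟨y, by simp [hy, hlt], by simp⟩
    · intro z
      simp only [mem_filter]
      rintro ⟨h1, h2⟩
      exact ⟨h1, hlt.trans h2⟩
  omega

/-- Potentials of two sets, top version. -/
theorem psiL_two (A A' S : Finset α) :
    psiL A S + psiL A' S ≤ 6 + hb #{x ∈ S | (x ∈ A ∧ x ∈ A') ∧ lo S x < 3} ∧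
      #{x ∈ S | (x ∈ A ∧ x ∈ A') ∧ lo S x < 3} ∈ range 4 := by
  set X := {x ∈ S | (x ∈ A ∧ x ∈ A') ∧ lo S x < 3} with hX
  have hinj : Set.InjOn (lo S) X := by
    intro x hx y hy h
    have hx' := (mem_filter.1 (mem_coe.1 hx)).1
    have hy' := (mem_filter.1 (mem_coe.1 hy)).1
    exact lo_inj hx' hy' h
  have himg : X.image (lo S) ⊆ range 3 := by
    intro i hi
    rw [mem_image] at hi
    obtain ⟨x, hx, rfl⟩ := hi
    exact mem_range.2 (mem_filter.1 hx).2.2
  have hcard : #(X.image (lo S)) = #X := card_image_of_injOn hinj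
  constructor
  · have h1 : ∑ x ∈ X, (3 - lo S x) ≤ hb #X := by
      have := hb_range _ (mem_powerset.2 himg)
      rw [hcard, sum_image hinj] at this
      exact this
    have h2 := sum_rank_le S
    have h3 : psiL A S + psiL A' S ≤ ∑ x ∈ S, (3 - lo S x) + ∑ x ∈ X, (3 - lo S x) := by
      unfold psiL
      rw [hX, sum_filter, sum_filter, sum_filter, ← sum_add_distrib, ← sum_add_distrib]
      apply sum_le_sum
      intro x _
      split_ifs <;> first | omega | simp_all
    omega
  · have := card_le_card himg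
    rw [hcard, card_range] at this
    exact mem_range.2 (by omega)

/-- Potentials of two sets, bottom version. -/
theorem psiH_two (A A' S : Finset α) :
    psiH A S + psiH A' S ≤ 6 + hb #{x ∈ S | (x ∈ A ∧ x ∈ A') ∧ hi S x < 3} ∧
      #{x ∈ S | (x ∈ A ∧ x ∈ A') ∧ hi S x < 3} ∈ range 4 := by
  set X := {x ∈ S | (x ∈ A ∧ x ∈ A') ∧ hi S x < 3} with hX
  have hinj : Set.InjOn (hi S) X := by
    intro x hx y hy h
    have hx' := (mem_filter.1 (mem_coe.1 hx)).1
    have hy' := (mem_filter.1 (mem_coe.1 hy)).1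
    exact hi_inj hx' hy' h
  have himg : X.image (hi S) ⊆ range 3 := by
    intro i hi
    rw [mem_image] at hi
    obtain ⟨x, hx, rfl⟩ := hi
    exact mem_range.2 (mem_filter.1 hx).2.2
  have hcard : #(X.image (hi S)) = #X := card_image_of_injOn hinj
  constructor
  · have h1 : ∑ x ∈ X, (3 - hi S x) ≤ hb #X := by
      have := hb_range _ (mem_powerset.2 himg)
      rw [hcard, sum_image hinj] at this
      exact this
    have h2 := sum_rank_le' S
    have h3 : psiH A S + psiH A' S ≤ ∑ x ∈ S, (3 - hi S x) + ∑ x ∈ X, (3 - hi S x) := by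
      unfold psiH
      rw [hX, sum_filter, sum_filter, sum_filter, ← sum_add_distrib, ← sum_add_distrib]
      apply sum_le_sum
      intro x _
      split_ifs <;> first | omega | simp_all
    omega
  · have := card_le_card himg
    rw [hcard, card_range] at this
    exact mem_range.2 (by omega)

/-- All pairs of a finite set. -/
def prs (F : Finset α) : Finset (α × α) := (F ×ˢ F).filter (fun p => p.1 < p.2)

theorem mem_prs {F : Finset α} {u w : α} : (u, w) ∈ prs F ↔ u ∈ F ∧ w ∈ F ∧ u < w := by
  simp [prs, and_assoc]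

theorem vis_subset_prs {S F : Finset α} (h : S ⊆ F) : vis S ⊆ prs F := by
  rintro ⟨u, w⟩ hp
  obtain ⟨h1, h2, h3, _⟩ := mem_vis.1 hp
  exact mem_prs.2 ⟨h h1, h h2, h3⟩

theorem card_prs (F : Finset α) : 2 * #(prs F) = #F * (#F - 1) := by
  have h1 : #(prs F) = ∑ x ∈ F, #{y ∈ F | y < x} := by
    have : prs F = F.biUnion (fun x => {y ∈ F | y < x}.image (fun y => (y, x))) := by
      ext ⟨u, w⟩
      rw [mem_prs]
      simp only [mem_biUnion, mem_image, mem_filter, Prod.mk.injEq]
      constructor
      · rintro ⟨h1, h2, h3⟩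
        exact ⟨w, h2, u, ⟨h1, h3⟩, rfl, rfl⟩
      · rintro ⟨x, hx, y, ⟨hy, hlt⟩, rfl, rfl⟩
        exact ⟨hy, hx, hlt⟩
    rw [this, card_biUnion]
    · refine sum_congr rfl fun x _ => ?_
      apply card_image_of_injective
      intro u u' h
      exact (Prod.mk.inj h).1
    · intro x _ y _ hxy
      rw [Function.onFun, disjoint_left]
      rintro ⟨u, w⟩ h1 h2
      simp only [mem_image, mem_filter, Prod.mk.injEq] at h1 h2
      obtain ⟨_, _, _, rfl⟩ := h1
      obtain ⟨_, _, _, rfl⟩ := h2
      exact hxy rfl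
  have h2 := sum_rank_below (fun i => i) F
  rw [h1, h2, mul_comm, Finset.sum_range_id_mul_two]

end Pool.Agent.T9h77.Bar2
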